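import Mathlib

/-!
Finite relational structures, primitive positive formulas, primitive positive constructions,
and the conditions (M) and (S).
-/

set_option autoImplicit false

namespace Pool.Agent.H99

/-- A relational signature with finitely many relation symbols, each with an arity. -/
structure Sig where
  Sym : Type
  finite : Finite Sym
  arity : Sym → ℕ

/-- A relational structure with a finite (possibly empty) domain `Dom` over the signature `σ`. -/
structure Str (σ : Sig) where
  Dom : Type
  finite : Finite Dom
  rel : (R : σ.Sym) → (Fin (σ.arity R) → Dom) → Prop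

attribute [instance] Sig.finite Str.finite

variable {σ τ : Sig}

/-- `h` is a homomorphism from `A` to `B`. -/
def IsHom (A B : Str σ) (h : A.Dom → B.Dom) : Prop :=
  ∀ (R : σ.Sym) (x : Fin (σ.arity R) → A.Dom), A.rel R x → B.rel R (fun j => h (x j))

/-- The power `A ^ n`: the domain is the set of all `n`-tuples, relations hold coordinatewise. -/
def Str.pow (A : Str σ) (n : ℕ) : Str σ where
  Dom := Fin n → A.Dom
  finite := inferInstance
  rel := fun R x => ∀ i : Fin n, A.rel R (fun j => x j i)

/-- `f` is an `n`-ary polymorphism of `A`: a homomorphism `A ^ n → A`. -/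
def IsPolymorphism (A : Str σ) (n : ℕ) (f : (Fin n → A.Dom) → A.Dom) : Prop :=
  IsHom (A.pow n) A f

/-- Homomorphic equivalence. -/
def HomEquivalent (A B : Str σ) : Prop :=
  (∃ h, IsHom A B h) ∧ (∃ h, IsHom B A h)

/-- Primitive positive formulas over `σ` with free variables `0, …, n - 1`: built from true,
equalities and relational atoms by conjunction and existential quantification. -/
inductive PPFormula (σ : Sig) : ℕ → Type
  | verum {n : ℕ} : PPFormula σ n
  | equal {n : ℕ} (i j : Fin n) : PPFormula σ n
  | atom {n : ℕ} (R : σ.Sym) (v : Fin (σ.arity R) → Fin n) : PPFormula σ n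
  | conj {n : ℕ} (φ ψ : PPFormula σ n) : PPFormula σ n
  | exist {n : ℕ} (φ : PPFormula σ (n + 1)) : PPFormula σ n

/-- Satisfaction of a primitive positive formula in `A` by an assignment of its free variables. -/
def PPFormula.Holds (A : Str σ) : {n : ℕ} → PPFormula σ n → (Fin n → A.Dom) → Prop
  | _, .verum, _ => True
  | _, .equal i j, x => x i = x j
  | _, .atom R v, x => A.rel R (fun k => x (v k))
  | _, .conj φ ψ, x => φ.Holds A x ∧ ψ.Holds A x
  | _, .exist φ, x => ∃ a : A.Dom, φ.Holds A (Fin.snoc x a)

/-- The structure defined in `A` by a dimension `n`, a domain formula `φ` in `n` variables and,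
for every relation symbol `R` of arity `k`, a formula `Φ R` in `k * n` variables; the `k * n`
variables are the concatenation of `k` blocks of `n` variables each. -/
def ppPower (A : Str σ) (τ : Sig) (n : ℕ) (φ : PPFormula σ n)
    (Φ : (R : τ.Sym) → PPFormula σ (τ.arity R * n)) : Str τ where
  Dom := {x : Fin n → A.Dom // φ.Holds A x}
  finite := inferInstance
  rel := fun R x => (Φ R).Holds A
    (fun v => (x (finProdFinEquiv.symm v).1).1 (finProdFinEquiv.symm v).2)

/-- `A` pp-constructs `B`. -/
def PPConstructs (A : Str σ) (B : Str τ) : Prop :=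
  ∃ (n : ℕ) (φ : PPFormula σ n) (Φ : (R : τ.Sym) → PPFormula σ (τ.arity R * n)),
    HomEquivalent (ppPower A τ n φ Φ) B

/-- `A` and `B` are pp-interconstructible. -/
def PPInterconstructible (A : Str σ) (B : Str τ) : Prop :=
  PPConstructs A B ∧ PPConstructs B A

/-- The signature with one binary relation symbol for each element of the finite group `G`. -/
def groupSig (G : Type) [Finite G] : Sig where
  Sym := G
  finite := inferInstance
  arity := fun _ => 2

/-- The permutation group `G ↷ X` as a structure: the domain is `X`, and the symbol `g` is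
interpreted as the graph `{(x, g • x)}`. -/
def permStr (G X : Type) [Group G] [Finite G] [Finite X] [MulAction G X] : Str (groupSig G) where
  Dom := X
  finite := inferInstance
  rel := fun g x => x (1 : Fin 2) = (show G from g) • x (0 : Fin 2)

/-- The signature with one binary relation symbol. -/
def binSig : Sig where
  Sym := Unit
  finite := inferInstance
  arity := fun _ => 2

/-- `P₁ = ({0, 1}; <)`. -/
def P1 : Str binSig where
  Dom := Fin 2
  finite := inferInstance
  rel := fun _ x => x (0 : Fin 2) < x (1 : Fin 2)

/-- Condition (M): a ternary polymorphism with `f(x,y,y) = f(x,x,x) = f(y,y,x)`. -/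
def CondM (A : Str σ) : Prop :=
  ∃ f : (Fin 3 → A.Dom) → A.Dom, IsPolymorphism A 3 f ∧
    ∀ x y : A.Dom, f ![x, y, y] = f ![x, x, x] ∧ f ![x, x, x] = f ![y, y, x]

/-- Condition (S): guarded fully symmetric polymorphisms of all arities. -/
def CondS (A : Str σ) : Prop :=
  ∀ n : ℕ, 1 ≤ n → ∃ f : (Fin (n + 1) → A.Dom) → A.Dom, IsPolymorphism A (n + 1) f ∧
    (∀ (x : A.Dom) (y : Fin n → A.Dom) (s : Equiv.Perm (Fin n)),
      f (Fin.cons x (fun i => y (s i))) = f (Fin.cons x y)) ∧
    (∀ x₁ x₂ y : A.Dom, f (Fin.cons x₁ (fun _ => y)) = f (Fin.cons x₂ (fun _ => y)))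

end Pool.Agent.H99
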