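import Mathlib
import Pool.Agent.H99.PPDefs

set_option autoImplicit false

namespace Pool.Agent.H99

variable {σ τ : Sig}

/-- Polymorphisms of `A` whose arguments are indexed by an arbitrary type `I`. -/
def Pol (A : Str σ) (I : Type) : Type :=
  {f : (I → A.Dom) → A.Dom // ∀ (R : σ.Sym) (x : Fin (σ.arity R) → I → A.Dom),
    (∀ i, A.rel R (fun j => x j i)) → A.rel R (fun j => f (x j))}

/-- Minor of a polymorphism. -/
def Pol.mnr {A : Str σ} {I J : Type} (s : I → J) (f : Pol A I) : Pol A J :=
  ⟨fun x => f.1 (fun i => x (s i)), fun R x hx => f.2 R (fun j i => x j (s i)) (fun i => hx (s i))⟩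

theorem Pol.ext {A : Str σ} {I : Type} {f g : Pol A I} (h : ∀ x, f.1 x = g.1 x) : f = g :=
  Subtype.ext (funext h)

/-- A minor-preserving map from the polymorphisms of `A` to those of `B`. -/
structure MinionHom (A : Str σ) (B : Str τ) where
  map : (I : Type) → Pol A I → Pol B I
  nat : ∀ {I J : Type} [Finite I] [Finite J] (s : I → J) (f : Pol A I),
    map J (f.mnr s) = (map I f).mnr s

/-! ### From pp-constructions to minion homomorphisms -/

theorem holds_pol {A : Str σ} {I : Type} (f : Pol A I) {n : ℕ} (φ : PPFormula σ n)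
    (x : I → Fin n → A.Dom) (hx : ∀ i, φ.Holds A (x i)) :
    φ.Holds A (fun j => f.1 (fun i => x i j)) := by
  induction φ with
  | verum => trivial
  | equal i j =>
    simp only [PPFormula.Holds] at hx ⊢
    exact congrArg f.1 (funext hx)
  | atom R v =>
    simp only [PPFormula.Holds] at hx ⊢
    exact f.2 R (fun j i => x i (v j)) hx
  | conj φ ψ ih1 ih2 =>
    exact ⟨ih1 x (fun i => (hx i).1), ih2 x (fun i => (hx i).2)⟩
  | exist φ ih =>
    have h : ∀ i, ∃ a : A.Dom, φ.Holds A (Fin.snoc (x i) a) := hx
    choose a ha using h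
    refine ⟨f.1 a, ?_⟩
    have := ih (fun i => Fin.snoc (x i) (a i)) ha
    convert this using 1
    funext j
    refine Fin.lastCases ?_ (fun j => ?_) j
    · simp
    · simp

/-- A pp-construction yields a minor-preserving map. -/
theorem minionHom_of_ppConstructs {A : Str σ} {B : Str τ} (h : PPConstructs A B) :
    Nonempty (MinionHom A B) := by
  obtain ⟨n, φ, Φ, ⟨p, hp⟩, ⟨q, hq⟩⟩ := h
  refine ⟨{ map := fun I f => ⟨fun x => p ⟨fun j => f.1 (fun i => (q (x i)).1 j), ?_⟩, ?_⟩,
            nat := ?_ }⟩
  · exact holds_pol f φ (fun i => (q (x i)).1) (fun i => (q (x i)).2)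
  · intro R x hx
    apply hp R (fun k => ⟨fun j => f.1 (fun i => (q (x k i)).1 j),
      holds_pol f φ (fun i => (q (x k i)).1) (fun i => (q (x k i)).2)⟩)
    have h1 : ∀ i, (ppPower A τ n φ Φ).rel R (fun j => q (x j i)) := fun i => hq R _ (hx i)
    exact holds_pol f (Φ R) (fun i v => (q (x (finProdFinEquiv.symm v).1 i)).1
      (finProdFinEquiv.symm v).2) h1
  · intro I J _ _ s f
    rfl

/-! ### From minion homomorphisms to pp-constructions -/

/-- Conjunction of a finite family. -/
noncomputable def PPFormula.all {n : ℕ} (ι : Type) [Finite ι] (F : ι → PPFormula σ n) :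
    PPFormula σ n :=
  letI := Fintype.ofFinite ι
  ((Finset.univ : Finset ι).toList.map F).foldr PPFormula.conj PPFormula.verum

theorem PPFormula.holds_all {A : Str σ} {n : ℕ} (ι : Type) [Finite ι] (F : ι → PPFormula σ n)
    (x : Fin n → A.Dom) : (PPFormula.all ι F).Holds A x ↔ ∀ i, (F i).Holds A x := by
  have key : ∀ l : List ι, ((l.map F).foldr PPFormula.conj PPFormula.verum).Holds A x ↔
      ∀ i ∈ l, (F i).Holds A x := by
    intro l
    induction l with
    | nil => simp [PPFormula.Holds]
    | cons a l ih => simp [PPFormula.Holds, ih]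
  unfold PPFormula.all
  rw [key]
  simp

/-- Existential quantification over the last `m` variables. -/
def PPFormula.exs {n : ℕ} : (m : ℕ) → PPFormula σ (n + m) → PPFormula σ n
  | 0, φ => φ
  | (m + 1), φ => PPFormula.exs m (PPFormula.exist φ)

theorem PPFormula.holds_exs {A : Str σ} {n : ℕ} (m : ℕ) (φ : PPFormula σ (n + m))
    (x : Fin n → A.Dom) :
    (PPFormula.exs m φ).Holds A x ↔ ∃ z : Fin m → A.Dom, φ.Holds A (Fin.append x z) := by
  induction m with
  | zero =>
    simp only [PPFormula.exs]
    have key : ∀ z : Fin 0 → A.Dom, Fin.append x z = x := by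
      intro z
      funext i
      exact Fin.append_left x z i
    constructor
    · intro h
      refine ⟨Fin.elim0, ?_⟩
      rw [key]
      exact h
    · rintro ⟨z, hz⟩
      rw [key] at hz
      exact hz
  | succ m ih =>
    simp only [PPFormula.exs]
    rw [ih]
    constructor
    · rintro ⟨z, a, h⟩
      refine ⟨Fin.snoc z a, ?_⟩
      rw [Fin.append_snoc x z a]
      exact h
    · rintro ⟨z, h⟩
      refine ⟨Fin.init z, z (Fin.last m), ?_⟩
      rw [← Fin.append_snoc, Fin.snoc_init_self]
      exact h

/-- The formula which says that the table `y ↦ x (v y)` is a polymorphism. -/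
noncomputable def polyF (A : Str σ) (I : Type) [Finite I] {n : ℕ} (v : (I → A.Dom) → Fin n) :
    PPFormula σ n :=
  PPFormula.all
    ((R : σ.Sym) × {r : Fin (σ.arity R) → I → A.Dom // ∀ i, A.rel R (fun j => r j i)})
    (fun p => PPFormula.atom p.1 (fun j => v (p.2.1 j)))

theorem holds_polyF {A : Str σ} {I : Type} [Finite I] {n : ℕ} (v : (I → A.Dom) → Fin n)
    (x : Fin n → A.Dom) :
    (polyF A I v).Holds A x ↔ ∀ (R : σ.Sym) (r : Fin (σ.arity R) → I → A.Dom),
      (∀ i, A.rel R (fun j => r j i)) → A.rel R (fun j => x (v (r j))) := by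
  unfold polyF
  rw [PPFormula.holds_all]
  constructor
  · intro h R r hr
    exact h ⟨R, r, hr⟩
  · rintro h ⟨R, r, hr⟩
    exact h R r hr

/-- Every minor-preserving map yields a pp-construction. -/
theorem ppConstructs_of_minionHom {A : Str σ} {B : Str τ} (ξ : MinionHom A B) :
    PPConstructs A B := by
  classical
  -- enumeration of the coordinates
  let N := Nat.card (B.Dom → A.Dom)
  let e : (B.Dom → A.Dom) ≃ Fin N := Finite.equivFin _
  let T : τ.Sym → Type := fun R => {t : Fin (τ.arity R) → B.Dom // B.rel R t}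
  let eT : (R : τ.Sym) → (T R → A.Dom) ≃ Fin (Nat.card (T R → A.Dom)) :=
    fun R => Finite.equivFin _
  let φ : PPFormula σ N := polyF A B.Dom (fun y => e y)
  let Φ : (R : τ.Sym) → PPFormula σ (τ.arity R * N) := fun R =>
    PPFormula.exs (Nat.card (T R → A.Dom))
      (PPFormula.conj
        (polyF A (T R) (fun y => Fin.natAdd (τ.arity R * N) (eT R y)))
        (PPFormula.all (Fin (τ.arity R) × (B.Dom → A.Dom)) (fun p =>
          PPFormula.equal (Fin.castAdd _ (finProdFinEquiv (p.1, e p.2)))
            (Fin.natAdd _ (eT R (fun t => p.2 (t.1 p.1)))))))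
  -- elements of the domain of the power are polymorphisms
  have hdom : ∀ x : Fin N → A.Dom, φ.Holds A x ↔
      ∀ (R : σ.Sym) (r : Fin (σ.arity R) → B.Dom → A.Dom),
      (∀ i, A.rel R (fun j => r j i)) → A.rel R (fun j => x (e (r j))) := by
    intro x
    exact holds_polyF _ _
  have hrel : ∀ (R : τ.Sym) (x : Fin (τ.arity R) → {x : Fin N → A.Dom // φ.Holds A x}),
      (ppPower A τ N φ Φ).rel R x ↔ ∃ g : Pol A (T R), ∀ (j : Fin (τ.arity R))
        (y : B.Dom → A.Dom), (x j).1 (e y) = g.1 (fun t => y (t.1 j)) := by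
    intro R x
    show (Φ R).Holds A _ ↔ _
    simp only [Φ]
    rw [PPFormula.holds_exs]
    constructor
    · rintro ⟨z, h1, h2⟩
      rw [holds_polyF] at h1
      rw [PPFormula.holds_all] at h2
      refine ⟨⟨fun y => z (eT R y), ?_⟩, ?_⟩
      · intro S r hr
        have := h1 S r hr
        simpa [Fin.append_right] using this
      · intro j y
        have := h2 (j, y)
        simp only [PPFormula.Holds, Fin.append_left, Fin.append_right] at this
        simpa using this
    · rintro ⟨g, hg⟩
      refine ⟨fun i => g.1 ((eT R).symm i), ?_, ?_⟩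
      · rw [holds_polyF]
        intro S r hr
        simp only [Fin.append_right, Equiv.symm_apply_apply]
        exact g.2 S r hr
      · rw [PPFormula.holds_all]
        rintro ⟨j, y⟩
        simp only [PPFormula.Holds, Fin.append_left, Fin.append_right]
        simpa using hg j y
  refine ⟨N, φ, Φ, ?_, ?_⟩
  · -- from the power to B
    let toPol : {x : Fin N → A.Dom // φ.Holds A x} → Pol A B.Dom := fun x =>
      ⟨fun y => x.1 (e y), (hdom x.1).1 x.2⟩
    refine ⟨fun x => (ξ.map B.Dom (toPol x)).1 id, ?_⟩
    intro R x hx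
    obtain ⟨g, hg⟩ := (hrel R x).1 hx
    have h1 : ∀ j, toPol (x j) = g.mnr (fun t : T R => t.1 j) := by
      intro j
      apply Pol.ext
      intro y
      exact hg j y
    have h2 : ∀ j, (ξ.map B.Dom (toPol (x j))).1 id =
        (ξ.map (T R) g).1 (fun t => t.1 j) := by
      intro j
      rw [h1 j, ξ.nat]
      rfl
    have h3 := (ξ.map (T R) g).2 R (fun j t => t.1 j) (fun t => t.2)
    show B.rel R (fun j => (ξ.map B.Dom (toPol (x j))).1 id)
    simp only [h2]
    exact h3
  · -- from B to the power
    have hproj : ∀ b : B.Dom, φ.Holds A (fun i => e.symm i b) := by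
      intro b
      rw [hdom]
      intro R r hr
      simpa using hr b
    refine ⟨fun b => ⟨fun i => e.symm i b, hproj b⟩, ?_⟩
    intro R x hx
    rw [hrel]
    refine ⟨⟨fun y => y ⟨x, hx⟩, fun S r hr => hr _⟩, ?_⟩
    intro j y
    simp

end Pool.Agent.H99
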