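import Mathlib
import Pool.Agent.H99.PPDefs
import Pool.Agent.H99.BOP

set_option autoImplicit false

namespace Pool.Agent.H99

/-- A family of abstract operations with arities in types, and a minor operation. -/
structure Minion where
  El : Type → Type
  mnr : {I J : Type} → (I → J) → El I → El J

/-- Distinguished elements: unary, Maltsev, guarded symmetric. -/
structure Good (𝒜 : Minion) where
  u : 𝒜.El Unit
  m : 𝒜.El (Fin 3)
  m1 : 𝒜.mnr (![0, 1, 1] : Fin 3 → Fin 2) m = 𝒜.mnr (fun _ => (0 : Fin 2)) u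
  m2 : 𝒜.mnr (![1, 1, 0] : Fin 3 → Fin 2) m = 𝒜.mnr (fun _ => (0 : Fin 2)) u
  s : (n : ℕ) → 𝒜.El (Option (Fin (n + 1)))
  s1 : ∀ (n : ℕ) (p : Equiv.Perm (Fin (n + 1))), 𝒜.mnr (Option.map p) (s n) = s n
  s2 : ∀ (n : ℕ), 𝒜.mnr (fun o : Option (Fin (n + 1)) => o.elim (0 : Fin 2) (fun _ => 1)) (s n)
    = 𝒜.mnr (fun _ => (1 : Fin 2)) u

/-- A finite algebra over a minion. -/
structure MAlg (𝒜 : Minion) where
  D : Type
  finite : Finite D
  op : {I : Type} → 𝒜.El I → (I → D) → D
  op_mnr : ∀ {I J : Type} (s : I → J) (a : 𝒜.El I) (x : J → D),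
    op (𝒜.mnr s a) x = op a (fun i => x (s i))
  op_unit : ∀ (a : 𝒜.El Unit) (x : Unit → D), op a x = x ()

attribute [instance] MAlg.finite

variable {𝒜 : Minion}

namespace MAlg

section ops

variable (A : MAlg 𝒜) (H : Good 𝒜)

/-- The Maltsev operation. -/
def mal (x y z : A.D) : A.D := A.op H.m ![x, y, z]

theorem mal_left (x y : A.D) : A.mal H x y y = x := by
  have h := A.op_mnr (![0, 1, 1] : Fin 3 → Fin 2) H.m ![x, y]
  rw [H.m1, A.op_mnr, A.op_unit] at h
  unfold mal
  have h2 : (fun i => ![x, y] ((![0, 1, 1] : Fin 3 → Fin 2) i)) = ![x, y, y] := by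
    funext i
    fin_cases i <;> rfl
  rw [h2] at h
  exact h.symm

theorem mal_right (x y : A.D) : A.mal H y y x = x := by
  have h := A.op_mnr (![1, 1, 0] : Fin 3 → Fin 2) H.m ![x, y]
  rw [H.m2, A.op_mnr, A.op_unit] at h
  unfold mal
  have h2 : (fun i => ![x, y] ((![1, 1, 0] : Fin 3 → Fin 2) i)) = ![y, y, x] := by
    funext i
    fin_cases i <;> rfl
  rw [h2] at h
  exact h.symm

/-- The guarded symmetric operation. -/
def sym (n : ℕ) (x : A.D) (y : Fin (n + 1) → A.D) : A.D := A.op (H.s n) (fun o => o.elim x y)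

theorem sym_perm (n : ℕ) (x : A.D) (y : Fin (n + 1) → A.D) (p : Equiv.Perm (Fin (n + 1))) :
    A.sym H n x (fun i => y (p i)) = A.sym H n x y := by
  have h := A.op_mnr (Option.map p) (H.s n) (fun o => o.elim x y)
  rw [H.s1] at h
  unfold sym
  rw [h]
  congr 1
  funext o
  cases o <;> rfl

theorem sym_const (n : ℕ) (x y : A.D) : A.sym H n x (fun _ => y) = y := by
  have h := A.op_mnr (fun o : Option (Fin (n + 1)) => o.elim (0 : Fin 2) (fun _ => 1)) (H.s n)
    ![x, y]
  rw [H.s2, A.op_mnr, A.op_unit] at h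
  unfold sym
  have h2 : (fun i : Option (Fin (n + 1)) => ![x, y] (i.elim (0 : Fin 2) (fun _ => 1))) =
      (fun o => o.elim x (fun _ => y)) := by
    funext o
    cases o <;> rfl
  rw [h2] at h
  exact h.symm

end ops

/-- Homomorphisms. -/
def Hom (A B : MAlg 𝒜) (h : A.D → B.D) : Prop :=
  ∀ (I : Type) (a : 𝒜.El I) (x : I → A.D), h (A.op a x) = B.op a (fun i => h (x i))

theorem Hom.comp {A B C : MAlg 𝒜} {g : B.D → C.D} {h : A.D → B.D} (hg : Hom B C g)
    (hh : Hom A B h) : Hom A C (fun x => g (h x)) := by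
  intro I a x
  show g (h _) = _
  rw [hh I a x, hg I a]

/-- Congruences. -/
structure Cong (A : MAlg 𝒜) where
  r : Setoid A.D
  compat : ∀ {I : Type} (a : 𝒜.El I) (x y : I → A.D), (∀ i, r (x i) (y i)) →
    r (A.op a x) (A.op a y)

variable {A : MAlg 𝒜}

/-- Non-trivial (different from equality). -/
def Cong.Nontriv (α : Cong A) : Prop := ∃ x y, x ≠ y ∧ α.r x y

/-- Meet of congruences. -/
def Cong.inf (α β : Cong A) : Cong A where
  r := α.r ⊓ β.r
  compat := fun a x y h => ⟨α.compat a x y (fun i => (h i).1), β.compat a x y (fun i => (h i).2)⟩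

theorem Cong.swap (H : Good 𝒜) (α β : Cong A) {x y z : A.D} (h1 : α.r x y) (h2 : β.r y z) :
    ∃ w, β.r x w ∧ α.r w z := by
  refine ⟨A.mal H x y z, ?_, ?_⟩
  · have := β.compat H.m ![x, y, y] ![x, y, z] (by
      intro i
      fin_cases i
      · exact β.r.refl _
      · exact β.r.refl _
      · exact h2)
    have e : A.op H.m ![x, y, y] = x := A.mal_left H x y
    rw [e] at this
    exact this
  · have := α.compat H.m ![x, y, z] ![y, y, z] (by
      intro i
      fin_cases i
      · exact h1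
      · exact α.r.refl _
      · exact α.r.refl _)
    have e : A.op H.m ![y, y, z] = z := A.mal_right H z y
    rw [e] at this
    exact this

/-- Join of permuting congruences. -/
def Cong.comp (H : Good 𝒜) (α β : Cong A) : Cong A where
  r :=
    { r := fun x z => ∃ y, α.r x y ∧ β.r y z
      iseqv :=
        { refl := fun x => ⟨x, α.r.refl x, β.r.refl x⟩
          symm := by
            rintro x z ⟨y, h1, h2⟩
            obtain ⟨w, h3, h4⟩ := Cong.swap H α β h1 h2
            exact ⟨w, α.r.symm h4, β.r.symm h3⟩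
          trans := by
            rintro x y z ⟨p, h1, h2⟩ ⟨q, h3, h4⟩
            obtain ⟨w, h5, h6⟩ := Cong.swap H β α h2 h3
            exact ⟨w, α.r.trans h1 h5, β.r.trans h6 h4⟩ } }
  compat := by
    intro I a x y h
    have h' : ∀ i, ∃ z, α.r (x i) z ∧ β.r z (y i) := h
    choose z hz using h'
    exact ⟨A.op a z, α.compat a _ _ (fun i => (hz i).1), β.compat a _ _ (fun i => (hz i).2)⟩

/-- The quotient algebra. -/
noncomputable def quo (A : MAlg 𝒜) (α : Cong A) : MAlg 𝒜 where
  D := Quotient α.r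
  finite := inferInstance
  op := fun a q => Quotient.mk α.r (A.op a (fun i => (q i).out))
  op_mnr := by
    intro I J s a x
    simp only [A.op_mnr]
  op_unit := by
    intro a x
    simp only [A.op_unit]
    exact Quotient.out_eq _

/-- The quotient map. -/
def quoMk (A : MAlg 𝒜) (α : Cong A) (x : A.D) : (A.quo α).D := Quotient.mk α.r x

theorem quoMk_eq {A : MAlg 𝒜} {α : Cong A} {x y : A.D} :
    A.quoMk α x = A.quoMk α y ↔ α.r x y :=
  ⟨fun h => Quotient.exact (s := α.r) h, fun h => Quotient.sound (s := α.r) h⟩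

theorem quoMk_surj (A : MAlg 𝒜) (α : Cong A) : Function.Surjective (A.quoMk α) :=
  Quotient.mk_surjective (s := α.r)

/-- Functions on the quotient. -/
def quoLift {A : MAlg 𝒜} (α : Cong A) {E : Type} (h : A.D → E)
    (hh : ∀ x y, α.r x y → h x = h y) : (A.quo α).D → E :=
  Quotient.lift (s := α.r) h hh

theorem quo_hom (A : MAlg 𝒜) (α : Cong A) : Hom A (A.quo α) (A.quoMk α) := by
  intro I a x
  apply quoMk_eq.2
  apply α.compat
  intro i
  exact α.r.symm (Quotient.mk_out (s := α.r) (x i))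

theorem hom_of_quo {A B : MAlg 𝒜} (α : Cong A) (g : (A.quo α).D → B.D)
    (hg : Hom A B (fun x => g (A.quoMk α x))) : Hom (A.quo α) B g := by
  intro I a x
  choose y hy using fun i => quoMk_surj A α (x i)
  have h1 := hg I a y
  have h2 := quo_hom A α I a y
  have h3 : (fun i => A.quoMk α (y i)) = x := funext hy
  rw [h3] at h2
  have h4 : (fun i => g (A.quoMk α (y i))) = fun i => g (x i) := by
    funext i
    rw [hy]
  rw [h4] at h1
  rw [← h2]
  exact h1

/-- Subuniverses. -/
def Closed (A : MAlg 𝒜) (S : Set A.D) : Prop :=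
  ∀ (I : Type) (a : 𝒜.El I) (x : I → A.D), (∀ i, x i ∈ S) → A.op a x ∈ S

/-- Subalgebras. -/
def sub (A : MAlg 𝒜) (S : Set A.D) (hS : A.Closed S) : MAlg 𝒜 where
  D := S
  finite := inferInstance
  op := fun a x => ⟨A.op a (fun i => (x i).1), hS _ a _ (fun i => (x i).2)⟩
  op_mnr := by
    intro I J s a x
    apply Subtype.ext
    simp only [A.op_mnr]
  op_unit := by
    intro a x
    apply Subtype.ext
    simp only [A.op_unit]

theorem sub_hom (A : MAlg 𝒜) (S : Set A.D) (hS : A.Closed S) :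
    Hom (A.sub S hS) A (fun x => x.1) := by
  intro I a x
  rfl

/-- Kernel of a homomorphism. -/
def ker {A B : MAlg 𝒜} (h : A.D → B.D) (hh : Hom A B h) : Cong A where
  r := Setoid.ker h
  compat := by
    intro I a x y hxy
    have : ∀ i, h (x i) = h (y i) := hxy
    show h _ = h _
    rw [hh I a x, hh I a y]
    congr 1
    funext i
    exact this i

/-- Pullback of a congruence. -/
def Cong.comap {A B : MAlg 𝒜} (h : A.D → B.D) (hh : Hom A B h) (β : Cong B) : Cong A where
  r := Setoid.comap h β.r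
  compat := by
    intro I a x y hxy
    show β.r (h _) (h _)
    rw [hh I a x, hh I a y]
    exact β.compat a _ _ hxy

/-! ### The distributivity trick -/

theorem distrib (H : Good 𝒜) (α β γ : Cong A) (hαβ : ∀ x y, α.r x y → β.r x y → x = y)
    {d e p q : A.D} (h1 : α.r d p) (h2 : γ.r p e) (h3 : β.r d q) (h4 : γ.r q e) :
    γ.r d e := by
  classical
  -- partners
  have ha : ∀ x : {x // γ.r x d}, ∃ z, α.r x.1 z ∧ γ.r z e := by
    rintro ⟨x, hx⟩
    obtain ⟨w, h5, h6⟩ := Cong.swap H γ α hx h1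
    exact ⟨w, h5, γ.r.trans h6 h2⟩
  have hb : ∀ z : {z // γ.r z e}, ∃ x, β.r z.1 x ∧ γ.r x d := by
    rintro ⟨z, hz⟩
    obtain ⟨w, h5, h6⟩ := Cong.swap H γ β (γ.r.trans hz (γ.r.symm h4)) (β.r.symm h3)
    exact ⟨w, h5, h6⟩
  choose a ha1 ha2 using ha
  choose b hb1 hb2 using hb
  let φ : {x // γ.r x d} → {x // γ.r x d} := fun x => ⟨b ⟨a x, ha2 x⟩, hb2 _⟩
  -- a periodic point
  obtain ⟨x0, k, hk⟩ : ∃ (x0 : {x // γ.r x d}) (k : ℕ), φ^[k + 1] x0 = x0 := by
    let x : {x // γ.r x d} := ⟨d, γ.r.refl d⟩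
    obtain ⟨i, j, hij, he⟩ := Finite.exists_ne_map_eq_of_infinite (fun n : ℕ => φ^[n] x)
    rcases lt_or_gt_of_ne hij with h | h
    · refine ⟨φ^[i] x, j - i - 1, ?_⟩
      rw [← Function.iterate_add_apply]
      have : j - i - 1 + 1 + i = j := by omega
      rw [this]
      exact he.symm
    · refine ⟨φ^[j] x, i - j - 1, ?_⟩
      rw [← Function.iterate_add_apply]
      have : i - j - 1 + 1 + j = i := by omega
      rw [this]
      exact he
  let X : Fin (k + 1) → A.D := fun i => (φ^[i] x0).1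
  let Z : Fin (k + 1) → A.D := fun i => a (φ^[i] x0)
  have hXZ : ∀ i, α.r (X i) (Z i) := fun i => ha1 _
  have hZX : ∀ i, β.r (Z i) (X (finRotate (k + 1) i)) := by
    intro i
    have h5 : β.r (Z i) (φ^[i + 1] x0).1 := by
      rw [Function.iterate_succ_apply']
      exact hb1 ⟨a (φ^[i] x0), ha2 _⟩
    have h6 : (φ^[((finRotate (k + 1) i : Fin (k + 1)) : ℕ)] x0) = φ^[(i : ℕ) + 1] x0 := by
      rcases Nat.lt_or_ge (i : ℕ) k with h | h
      · have : ((finRotate (k + 1) i : Fin (k + 1)) : ℕ) = (i : ℕ) + 1 := by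
          apply coe_finRotate_of_ne_last
          intro hh
          rw [hh] at h
          simp at h
        rw [this]
      · have hi : i = Fin.last k := by
          apply Fin.ext
          have := i.2
          simp only [Fin.val_last]
          omega
        subst hi
        rw [finRotate_last]
        simp only [Fin.val_zero, Function.iterate_zero, id_eq, Fin.val_last]
        exact hk.symm
    show β.r (Z i) (φ^[((finRotate (k + 1) i : Fin (k + 1)) : ℕ)] x0).1
    rw [h6]
    exact h5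
  have e1 : α.r (A.sym H k d X) (A.sym H k d Z) := by
    apply α.compat
    intro o
    cases o with
    | none => exact α.r.refl _
    | some i => exact hXZ i
  have e2 : β.r (A.sym H k d Z) (A.sym H k d X) := by
    rw [← A.sym_perm H k d X (finRotate (k + 1))]
    apply β.compat
    intro o
    cases o with
    | none => exact β.r.refl _
    | some i => exact hZX i
  have e3 : A.sym H k d X = A.sym H k d Z := hαβ _ _ e1 (β.r.symm e2)
  have e4 : γ.r (A.sym H k d X) (A.sym H k d (fun _ => d)) := by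
    apply γ.compat
    intro o
    cases o with
    | none => exact γ.r.refl _
    | some i => exact (φ^[i] x0).2
  have e5 : γ.r (A.sym H k d Z) (A.sym H k d (fun _ => e)) := by
    apply γ.compat
    intro o
    cases o with
    | none => exact γ.r.refl _
    | some i => exact ha2 _
  rw [A.sym_const] at e4 e5
  rw [e3] at e4
  exact γ.r.trans (γ.r.symm e4) e5

theorem crt (H : Good 𝒜) (hne : Nonempty A.D) (c : (α : Cong A) → (A.quo α).D)
    (hc : ∀ α β : Cong A, α.Nontriv → β.Nontriv → (∀ x y, α.r x y → β.r x y) →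
      ∀ x, A.quoMk α x = c α → A.quoMk β x = c β) :
    ∃ d, ∀ α : Cong A, α.Nontriv → A.quoMk α d = c α := by
  classical
  by_cases hcase : ∃ α β : Cong A, α.Nontriv ∧ β.Nontriv ∧ ∀ x y, α.r x y → β.r x y → x = y
  · obtain ⟨α, β, hα, hβ, hαβ⟩ := hcase
    have nt : ∀ (α γ : Cong A), α.Nontriv → (Cong.comp H α γ).Nontriv := by
      rintro α γ ⟨x, y, hxy, h⟩
      exact ⟨x, y, hxy, y, h, γ.r.refl y⟩
    -- common upper bound
    have key : ∀ (α γ : Cong A), α.Nontriv → γ.Nontriv → ∀ x y,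
        A.quoMk α x = c α → A.quoMk γ y = c γ → ∃ z, α.r x z ∧ γ.r z y := by
      intro α γ hα hγ x y hx hy
      have h1 := hc α (Cong.comp H α γ) hα (nt α γ hα)
        (fun x y h => ⟨y, h, γ.r.refl y⟩) x hx
      have h2 := hc γ (Cong.comp H α γ) hγ (nt α γ hα)
        (fun x y h => ⟨x, α.r.refl x, h⟩) y hy
      have h3 : (Cong.comp H α γ).r x y := quoMk_eq.1 (h1.trans h2.symm)
      exact h3
    obtain ⟨a, ha⟩ := quoMk_surj A α (c α)
    obtain ⟨b, hb⟩ := quoMk_surj A β (c β)
    obtain ⟨z, hz1, hz2⟩ := key α β hα hβ a b ha hb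
    have hzα : A.quoMk α z = c α := by
      rw [← ha]
      exact quoMk_eq.2 (α.r.symm hz1)
    have hzβ : A.quoMk β z = c β := by
      rw [← hb]
      exact quoMk_eq.2 hz2
    refine ⟨z, ?_⟩
    intro γ hγ
    obtain ⟨e, he⟩ := quoMk_surj A γ (c γ)
    obtain ⟨p, hp1, hp2⟩ := key α γ hα hγ z e hzα he
    obtain ⟨q, hq1, hq2⟩ := key β γ hβ hγ z e hzβ he
    have := distrib H α β γ hαβ hp1 hp2 hq1 hq2
    rw [← he]
    exact quoMk_eq.2 this
  · push Not at hcase
    by_cases hex : ∃ α : Cong A, α.Nontriv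
    · obtain ⟨α, hα, hmin⟩ := WellFounded.has_min
        (measure (fun α : Cong A => Set.ncard {p : A.D × A.D | α.r p.1 p.2})).wf
        {α : Cong A | α.Nontriv} hex
      obtain ⟨a, ha⟩ := quoMk_surj A α (c α)
      refine ⟨a, ?_⟩
      intro γ hγ
      refine hc α γ hα hγ ?_ _ ha
      obtain ⟨x, y, h1, h2, h3⟩ := hcase α γ hα hγ
      have hinf : (Cong.inf α γ).Nontriv := ⟨x, y, h3, h1, h2⟩
      have h4 := hmin (Cong.inf α γ) hinf
      have h5 : {p : A.D × A.D | (Cong.inf α γ).r p.1 p.2} = {p : A.D × A.D | α.r p.1 p.2} := by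
        apply Set.eq_of_subset_of_ncard_le
        · rintro ⟨x, y⟩ h
          exact h.1
        · exact not_lt.1 h4
        · exact Set.toFinite _
      intro x y hxy
      have h6 : (x, y) ∈ {p : A.D × A.D | α.r p.1 p.2} := hxy
      rw [← h5] at h6
      exact h6.2
    · exact ⟨Classical.choice hne, fun α hα => absurd ⟨α, hα⟩ hex⟩

end MAlg

end Pool.Agent.H99
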