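import Mathlib
import Pool.Agent.H99.Alg

set_option autoImplicit false

namespace Pool.Agent.H99

open MAlg

variable {σ : Sig} {S : Str σ} {𝒜 : Minion}

/-! ### Supports -/

/-- `f` depends only on the coordinates in `T`. -/
def Supp {D : Type} (f : Pol S D) (T : Set D) : Prop :=
  ∀ y y' : D → S.Dom, (∀ d ∈ T, y d = y' d) → f.1 y = f.1 y'

theorem Supp.inter {D : Type} {f : Pol S D} {T U : Set D} (hT : Supp f T) (hU : Supp f U) :
    Supp f (T ∩ U) := by
  classical
  intro y y' h
  let z : D → S.Dom := fun d => if d ∈ T then y d else y' d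
  have h1 : f.1 y = f.1 z := by
    apply hT
    intro d hd
    simp [z, hd]
  have h2 : f.1 z = f.1 y' := by
    apply hU
    intro d hd
    by_cases hdT : d ∈ T
    · simp [z, hdT, h d ⟨hdT, hd⟩]
    · simp [z, hdT]
  rw [h1, h2]

/-- The least closed support. -/
def core (A : MAlg 𝒜) (f : Pol S A.D) : Set A.D := ⋂₀ {T | A.Closed T ∧ Supp f T}

theorem core_closed (A : MAlg 𝒜) (f : Pol S A.D) : A.Closed (core A f) := by
  intro I a x hx
  rw [core, Set.mem_sInter]
  intro T hT
  apply hT.1
  intro i
  exact Set.mem_sInter.1 (hx i) T hT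

theorem core_supp (A : MAlg 𝒜) (f : Pol S A.D) : Supp f (core A f) := by
  have hne : ({T | A.Closed T ∧ Supp f T} : Set (Set A.D)).Nonempty := by
    refine ⟨Set.univ, ?_, ?_⟩
    · intro I a x _
      trivial
    · intro y y' h
      have : y = y' := funext (fun d => h d trivial)
      rw [this]
  obtain ⟨T, hT, hmin⟩ := WellFounded.has_min
    (measure (fun T : Set A.D => Set.ncard T)).wf _ hne
  have : core A f = T := by
    apply Set.Subset.antisymm
    · exact Set.sInter_subset_of_mem hT
    · apply Set.subset_sInter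
      intro U hU
      have h1 : T ∩ U ∈ ({T | A.Closed T ∧ Supp f T} : Set (Set A.D)) := by
        refine ⟨?_, hT.2.inter hU.2⟩
        intro I a x hx
        exact ⟨hT.1 I a x (fun i => (hx i).1), hU.1 I a x (fun i => (hx i).2)⟩
      have h2 := hmin _ h1
      have h3 : T ∩ U = T := by
        apply Set.eq_of_subset_of_ncard_le Set.inter_subset_left
        · exact not_lt.1 h2
      rw [← h3]
      exact Set.inter_subset_right
  rw [this]
  exact hT.2

/-- No polymorphism of `S` is constant. -/
def NoConst (S : Str σ) : Prop := ∀ (D : Type) (f : Pol S D), ∃ y y', f.1 y ≠ f.1 y'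

theorem core_nonempty (hS : NoConst S) (A : MAlg 𝒜) (f : Pol S A.D) : (core A f).Nonempty := by
  by_contra h
  rw [Set.not_nonempty_iff_eq_empty] at h
  obtain ⟨y, y', hy⟩ := hS _ f
  apply hy
  apply core_supp A f
  intro d hd
  rw [h] at hd
  exact absurd hd (Set.notMem_empty d)

/-- A retraction onto a nonempty set. -/
noncomputable def retr (A : MAlg 𝒜) (T : Set A.D) (hT : A.Closed T) (hne : T.Nonempty)
    (d : A.D) : (A.sub T hT).D :=
  open Classical in if h : d ∈ T then ⟨d, h⟩ else ⟨hne.some, hne.some_mem⟩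

theorem retr_mem (A : MAlg 𝒜) (T : Set A.D) (hT : A.Closed T) (hne : T.Nonempty)
    (d : A.D) (h : d ∈ T) : retr A T hT hne d = ⟨d, h⟩ := by
  exact dif_pos h

theorem mnr_retr (A : MAlg 𝒜) {E : Type} (f : Pol S A.D) (T : Set A.D) (hT : A.Closed T)
    (hne : T.Nonempty) (hf : Supp f T) (h : A.D → E) :
    (f.mnr (retr A T hT hne)).mnr (fun t => h t.1) = f.mnr h := by
  apply Pol.ext
  intro y
  apply hf
  intro d hd
  show y (h (retr A T hT hne d).1) = y (h d)
  rw [retr_mem A T hT hne d hd]

/-! ### Symmetric operations on sets -/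

/-- The guarded symmetric operation applied to all elements of a set. -/
noncomputable def symSet (H : Good 𝒜) (A : MAlg 𝒜) (x : A.D) (M : Set A.D) : A.D :=
  open Classical in
  if h : ∃ n, Nonempty (Fin (n + 1) ≃ M) then
    A.sym H h.choose x (fun i => (h.choose_spec.some i).1) else x

theorem exists_enum {D : Type} [Finite D] {M : Set D} (h : M.Nonempty) :
    ∃ n, Nonempty (Fin (n + 1) ≃ M) := by
  have : Nonempty M := h.to_subtype
  have h0 : Nat.card M ≠ 0 := Nat.card_pos.ne'
  obtain ⟨n, hn⟩ := Nat.exists_eq_succ_of_ne_zero h0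
  refine ⟨n, ⟨?_⟩⟩
  have e := (Finite.equivFin M).symm
  rw [hn] at e
  exact e

theorem symSet_const (H : Good 𝒜) {A B : MAlg 𝒜} (g : A.D → B.D) (hg : Hom A B g)
    (x : A.D) (M : Set A.D) (hM : M.Nonempty) (b : B.D) (hb : ∀ d ∈ M, g d = b) :
    g (symSet H A x M) = b := by
  have h : ∃ n, Nonempty (Fin (n + 1) ≃ M) := exists_enum hM
  unfold symSet
  rw [dif_pos h]
  unfold MAlg.sym
  rw [hg _ (H.s _)]
  rw [← B.sym_const H h.choose (g x) b]
  unfold MAlg.sym
  congr 1
  funext o
  cases o with
  | none => rfl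
  | some i => exact hb _ (h.choose_spec.some i).2

theorem sym_indep (H : Good 𝒜) (A : MAlg 𝒜) (x : A.D) {n n' : ℕ} (y : Fin (n + 1) → A.D)
    (y' : Fin (n' + 1) → A.D) (e : Fin (n + 1) ≃ Fin (n' + 1)) (h : ∀ i, y i = y' (e i)) :
    A.sym H n x y = A.sym H n' x y' := by
  have hn : n + 1 = n' + 1 := Fin.equiv_iff_eq.1 ⟨e⟩
  have hn' : n = n' := by omega
  subst hn'
  have : y = fun i => y' (e i) := funext h
  rw [this]
  exact A.sym_perm H n x y' e

theorem symSet_iso (H : Good 𝒜) {A B : MAlg 𝒜} (g : A.D → B.D) (hg : Hom A B g)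
    (hinj : Function.Injective g) (x : A.D) (M : Set A.D) :
    g (symSet H A x M) = symSet H B (g x) (g '' M) := by
  by_cases hM : M.Nonempty
  · have h : ∃ n, Nonempty (Fin (n + 1) ≃ M) := exists_enum hM
    have h' : ∃ n, Nonempty (Fin (n + 1) ≃ (g '' M)) := exists_enum (hM.image g)
    unfold symSet
    rw [dif_pos h, dif_pos h']
    have : g (A.sym H h.choose x (fun i => (h.choose_spec.some i).1)) =
        B.sym H h.choose (g x) (fun i => g (h.choose_spec.some i).1) := by
      unfold MAlg.sym
      rw [hg _ (H.s _)]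
      congr 1
      funext o
      cases o <;> rfl
    rw [this]
    apply sym_indep H B (g x) _ _
      ((h.choose_spec.some.trans (Equiv.Set.image g M hinj)).trans h'.choose_spec.some.symm)
    intro i
    simp
  · rw [Set.not_nonempty_iff_eq_empty] at hM
    subst hM
    have h1 : ¬ ∃ n, Nonempty (Fin (n + 1) ≃ (∅ : Set A.D)) := by
      rintro ⟨n, ⟨e⟩⟩
      exact (e 0).2
    have h2 : ¬ ∃ n, Nonempty (Fin (n + 1) ≃ (g '' (∅ : Set A.D))) := by
      rintro ⟨n, ⟨e⟩⟩
      obtain ⟨z, hz, _⟩ := (e 0).2
      exact hz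
    unfold symSet
    rw [dif_neg h1, dif_neg h2]

/-! ### The recursive construction -/

/-- The approximations `F n A f`; correct when `n` is at least the size of `A`. -/
noncomputable def F (hS : NoConst S) (H : Good 𝒜) (F0 : (A : MAlg 𝒜) → Pol S A.D → A.D) :
    ℕ → (A : MAlg 𝒜) → Pol S A.D → A.D
  | 0 => F0
  | n + 1 => fun A f =>
    open Classical in
    if core A f = Set.univ then
      symSet H A (F0 A f) {d | ∀ α : Cong A, α.Nontriv →
        A.quoMk α d = F hS H F0 n (A.quo α) (f.mnr (A.quoMk α))}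
    else (F hS H F0 n (A.sub (core A f) (core_closed A f))
      (f.mnr (retr A (core A f) (core_closed A f) (core_nonempty hS A f)))).1

section main

variable (hS : NoConst S) (H : Good 𝒜) (F0 : (A : MAlg 𝒜) → Pol S A.D → A.D) (K : ℕ)

/-- The set of admissible values. -/
def MSet (n : ℕ) (A : MAlg 𝒜) (f : Pol S A.D) : Set A.D :=
  {d | ∀ α : Cong A, α.Nontriv →
        A.quoMk α d = F hS H F0 n (A.quo α) (f.mnr (A.quoMk α))}

theorem F_full (n : ℕ) (A : MAlg 𝒜) (f : Pol S A.D) (h : core A f = Set.univ) :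
    F hS H F0 (n + 1) A f = symSet H A (F0 A f) (MSet hS H F0 n A f) := by
  exact if_pos h

theorem F_notfull (n : ℕ) (A : MAlg 𝒜) (f : Pol S A.D) (h : core A f ≠ Set.univ) :
    F hS H F0 (n + 1) A f = (F hS H F0 n (A.sub (core A f) (core_closed A f))
      (f.mnr (retr A (core A f) (core_closed A f) (core_nonempty hS A f)))).1 := by
  exact if_neg h

/-- Naturality at `A`. -/
def NatAt (A : MAlg 𝒜) : Prop :=
  ∀ n, Nat.card A.D ≤ n → ∀ (B : MAlg 𝒜) (n' : ℕ), Nat.card B.D ≤ K → Nat.card B.D ≤ n' →
    ∀ h : A.D → B.D, Hom A B h → ∀ f : Pol S A.D,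
      F hS H F0 n' B (f.mnr h) = h (F hS H F0 n A f)

theorem card_quo_lt {A : MAlg 𝒜} (α : Cong A) (hα : α.Nontriv) :
    Nat.card (A.quo α).D < Nat.card A.D := by
  classical
  obtain ⟨x, y, hxy, h⟩ := hα
  let _ := Fintype.ofFinite A.D
  let _ := Fintype.ofFinite (A.quo α).D
  rw [Nat.card_eq_fintype_card, Nat.card_eq_fintype_card]
  apply Fintype.card_lt_of_surjective_not_injective (A.quoMk α) (quoMk_surj A α)
  intro hinj
  exact hxy (hinj (quoMk_eq.2 h))

theorem card_sub_lt {A : MAlg 𝒜} (T : Set A.D) (hT : A.Closed T) (h : T ≠ Set.univ) :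
    Nat.card (A.sub T hT).D < Nat.card A.D := by
  show Nat.card T < Nat.card A.D
  rw [Nat.card_coe_set_eq, ← Set.ncard_univ]
  exact Set.ncard_lt_ncard (Set.ssubset_univ_iff.2 h) (Set.toFinite _)

/-- The map between quotients. -/
def quoMap {A : MAlg 𝒜} (α β : Cong A) (h : ∀ x y, α.r x y → β.r x y) :
    (A.quo α).D → (A.quo β).D :=
  quoLift α (A.quoMk β) (fun x y hxy => quoMk_eq.2 (h x y hxy))

/-- Nonemptiness of the set of admissible values. -/
theorem mset_nonempty (A : MAlg 𝒜) (n : ℕ) (hn : Nat.card A.D ≤ n + 1)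
    (hK : Nat.card A.D ≤ K)
    (IH : ∀ B : MAlg 𝒜, Nat.card B.D < Nat.card A.D → NatAt hS H F0 K B)
    (f : Pol S A.D) : (MSet hS H F0 n A f).Nonempty := by
  have hne : Nonempty A.D := by
    obtain ⟨x, _⟩ := core_nonempty hS A f
    exact ⟨x⟩
  obtain ⟨d, hd⟩ := crt H hne (fun α => F hS H F0 n (A.quo α) (f.mnr (A.quoMk α))) (by
    intro α β hα hβ hle x hx
    have h1 := card_quo_lt α hα
    have h2 := card_quo_lt β hβ
    have hom : Hom (A.quo α) (A.quo β) (quoMap α β hle) := by
      apply hom_of_quo
      exact quo_hom A β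
    have h3 := IH (A.quo α) h1 n (by omega) (A.quo β) n (by omega) (by omega)
      (quoMap α β hle) hom (f.mnr (A.quoMk α))
    have h4 : (f.mnr (A.quoMk α)).mnr (quoMap α β hle) = f.mnr (A.quoMk β) := rfl
    rw [h4] at h3
    rw [h3, ← hx]
    rfl)
  exact ⟨d, hd⟩

theorem F_mem (A : MAlg 𝒜) (n : ℕ) (hn : Nat.card A.D ≤ n + 1)
    (hK : Nat.card A.D ≤ K)
    (IH : ∀ B : MAlg 𝒜, Nat.card B.D < Nat.card A.D → NatAt hS H F0 K B)
    (f : Pol S A.D) (hf : core A f = Set.univ) (α : Cong A) (hα : α.Nontriv) :
    A.quoMk α (F hS H F0 (n + 1) A f) =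
      F hS H F0 n (A.quo α) (f.mnr (A.quoMk α)) := by
  rw [F_full hS H F0 n A f hf]
  exact symSet_const H (A := A) (B := A.quo α) (A.quoMk α) (quo_hom A α) (F0 A f)
    (MSet hS H F0 n A f) (mset_nonempty hS H F0 K A n hn hK IH f) _ (fun d hd => hd α hα)

/-- The admissible set is transported by isomorphisms (one inclusion). -/
theorem mset_map (A B : MAlg 𝒜) (n n' : ℕ) (hn : Nat.card A.D ≤ n + 1)
    (hn' : Nat.card B.D ≤ n' + 1) (hB : Nat.card B.D ≤ K)
    (IH : ∀ C : MAlg 𝒜, Nat.card C.D < Nat.card A.D → NatAt hS H F0 K C)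
    (h : A.D → B.D) (hh : Hom A B h) (hinj : Function.Injective h)
    (hsurj : Function.Surjective h)
    (f : Pol S A.D) (d : A.D) (hd : d ∈ MSet hS H F0 n A f) :
    h d ∈ MSet hS H F0 n' B (f.mnr h) := by
  intro β hβ
  let α : Cong A := β.comap h hh
  have hα : α.Nontriv := by
    obtain ⟨x, y, hxy, h1⟩ := hβ
    obtain ⟨x, rfl⟩ := hsurj x
    obtain ⟨y, rfl⟩ := hsurj y
    exact ⟨x, y, fun e => hxy (by rw [e]), h1⟩
  let g : (A.quo α).D → (B.quo β).D :=
    quoLift α (fun x => B.quoMk β (h x)) (fun x y hxy => quoMk_eq.2 hxy)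
  have hg0 : Hom A (B.quo β) (fun x => B.quoMk β (h x)) := Hom.comp (quo_hom B β) hh
  have hg : Hom (A.quo α) (B.quo β) g := hom_of_quo α g hg0
  have h1 := card_quo_lt α hα
  have h2 := card_quo_lt β hβ
  have h3 := IH (A.quo α) h1 n (by omega) (B.quo β) n' (by omega) (by omega) g hg
    (f.mnr (A.quoMk α))
  have h4 : (f.mnr (A.quoMk α)).mnr g = (f.mnr h).mnr (B.quoMk β) := rfl
  rw [h4] at h3
  rw [h3, ← hd α hα]
  rfl

theorem range_closed {A B : MAlg 𝒜} (h : A.D → B.D) (hh : Hom A B h) :
    B.Closed (Set.range h) := by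
  intro I a x hx
  choose y hy using hx
  refine ⟨A.op a y, ?_⟩
  rw [hh I a y]
  congr 1
  funext i
  exact hy i

theorem core_mnr_le {A B : MAlg 𝒜} (h : A.D → B.D) (hh : Hom A B h) (f : Pol S A.D) :
    core B (f.mnr h) ⊆ Set.range h := by
  apply Set.sInter_subset_of_mem
  refine ⟨range_closed h hh, ?_⟩
  intro y y' hy
  exact congrArg f.1 (funext (fun i => hy _ ⟨i, rfl⟩))

theorem core_mnr_ge {A B : MAlg 𝒜} (h : A.D → B.D) (hh : Hom A B h)
    (hinj : Function.Injective h) (f : Pol S A.D) (hf : core A f = Set.univ) :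
    Set.range h ⊆ core B (f.mnr h) := by
  classical
  apply Set.subset_sInter
  rintro T ⟨hT1, hT2⟩
  have h1 : core A f ⊆ h ⁻¹' T := by
    apply Set.sInter_subset_of_mem
    refine ⟨?_, ?_⟩
    · intro I a x hx
      show h _ ∈ T
      rw [hh I a x]
      exact hT1 I a _ hx
    · intro y y' hy
      rcases isEmpty_or_nonempty A.D with hE | ⟨⟨d0⟩⟩
      · have : y = y' := funext (fun d => (hE.false d).elim)
        rw [this]
      · let z : B.D → S.Dom := fun b => if hb : ∃ a, h a = b then y hb.choose else y d0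
        let z' : B.D → S.Dom := fun b => if hb : ∃ a, h a = b then y' hb.choose else y d0
        have hz : (fun a => z (h a)) = y := by
          funext a
          have hb : ∃ a', h a' = h a := ⟨a, rfl⟩
          simp only [z, dif_pos hb]
          rw [hinj hb.choose_spec]
        have hz' : (fun a => z' (h a)) = y' := by
          funext a
          have hb : ∃ a', h a' = h a := ⟨a, rfl⟩
          simp only [z', dif_pos hb]
          rw [hinj hb.choose_spec]
        have h2 := hT2 z z' (by
          intro b hb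
          by_cases hex : ∃ a, h a = b
          · simp only [z, z', dif_pos hex]
            apply hy
            show h _ ∈ T
            rw [hex.choose_spec]
            exact hb
          · simp only [z, z', dif_neg hex])
        have h3 : f.1 (fun a => z (h a)) = f.1 (fun a => z' (h a)) := h2
        rw [hz, hz'] at h3
        exact h3
  rw [hf] at h1
  rintro b ⟨a, rfl⟩
  exact h1 (Set.mem_univ a)

/-- The case of an isomorphism. -/
theorem nat_iso (hF0 : ∀ (A B : MAlg 𝒜) (h : A.D → B.D), Hom A B h → Function.Bijective h →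
      Nat.card A.D ≤ K → ∀ f : Pol S A.D, F0 B (f.mnr h) = h (F0 A f))
    (A B : MAlg 𝒜) (n n' : ℕ) (hn : Nat.card A.D ≤ n + 1)
    (hn' : Nat.card B.D ≤ n' + 1) (hA : Nat.card A.D ≤ K)
    (IH : ∀ C : MAlg 𝒜, Nat.card C.D < Nat.card A.D → NatAt hS H F0 K C)
    (h : A.D → B.D) (hh : Hom A B h) (hinj : Function.Injective h)
    (hsurj : Function.Surjective h)
    (f : Pol S A.D) (hf : core A f = Set.univ) :
    F hS H F0 (n' + 1) B (f.mnr h) = h (F hS H F0 (n + 1) A f) := by
  have hcard : Nat.card A.D = Nat.card B.D := Nat.card_congr (Equiv.ofBijective h ⟨hinj, hsurj⟩)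
  have hf' : core B (f.mnr h) = Set.univ := by
    apply Set.eq_univ_of_univ_subset
    rw [← hsurj.range_eq]
    exact core_mnr_ge h hh hinj f hf
  rw [F_full hS H F0 n' B _ hf', F_full hS H F0 n A _ hf, symSet_iso H h hh hinj,
    hF0 A B h hh ⟨hinj, hsurj⟩ hA f]
  congr 1
  apply Set.Subset.antisymm
  · intro b hb
    let e : A.D ≃ B.D := Equiv.ofBijective h ⟨hinj, hsurj⟩
    have hg : Hom B A e.symm := by
      intro I a x
      apply hinj
      rw [hh I a]
      have h1 : ∀ b, h (e.symm b) = b := fun b => e.apply_symm_apply b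
      rw [h1]
      congr 1
      funext i
      exact (h1 _).symm
    have h2 := mset_map hS H F0 K B A n' n hn' hn hA (fun C hC => IH C (by omega)) e.symm hg
      e.symm.injective e.symm.surjective (f.mnr h) b hb
    have h3 : (f.mnr h).mnr e.symm = f := by
      apply Pol.ext
      intro y
      refine congrArg f.1 (funext (fun i => ?_))
      have : e.symm (h i) = i := e.symm_apply_apply i
      show y (e.symm (h i)) = y i
      rw [this]
    rw [h3] at h2
    refine ⟨e.symm b, h2, ?_⟩
    exact e.apply_symm_apply b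
  · rintro b ⟨d, hd, rfl⟩
    exact mset_map hS H F0 K A B n n' hn hn' (by omega) IH h hh hinj hsurj f d hd

/-- Full naturality. -/
theorem nat_all (hF0 : ∀ (A B : MAlg 𝒜) (h : A.D → B.D), Hom A B h → Function.Bijective h →
      Nat.card A.D ≤ K → ∀ f : Pol S A.D, F0 B (f.mnr h) = h (F0 A f)) :
    ∀ (k : ℕ) (A : MAlg 𝒜), Nat.card A.D = k → k ≤ K → NatAt hS H F0 K A := by
  intro k
  induction k using Nat.strong_induction_on with
  | _ k ih =>
    intro A hAk hkK
    have IH : ∀ B : MAlg 𝒜, Nat.card B.D < Nat.card A.D → NatAt hS H F0 K B := by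
      intro B hB
      exact ih (Nat.card B.D) (by omega) B rfl (by omega)
    intro n hn B n' hBK hBn' h hh f
    have hA0 : 0 < Nat.card A.D := by
      have : Nonempty A.D := (core_nonempty hS A f).to_type
      exact Nat.card_pos
    have hB0 : 0 < Nat.card B.D := by
      have : Nonempty B.D := (core_nonempty hS B (f.mnr h)).to_type
      exact Nat.card_pos
    obtain ⟨n, rfl⟩ : ∃ m, n = m + 1 := ⟨n - 1, by omega⟩
    obtain ⟨n', rfl⟩ : ∃ m, n' = m + 1 := ⟨n' - 1, by omega⟩
    by_cases hf : core A f = Set.univ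
    · by_cases hinj : Function.Injective h
      · by_cases hsurj : Function.Surjective h
        · exact nat_iso hS H F0 K hF0 A B n n' hn hBn' (by omega) IH h hh hinj hsurj f hf
        · -- injective, not surjective
          have hle := core_mnr_le h hh f
          have hge := core_mnr_ge h hh hinj f hf
          have hne : core B (f.mnr h) ≠ Set.univ := by
            intro e
            apply hsurj
            intro b
            exact hle (e ▸ Set.mem_univ b)
          rw [F_notfull hS H F0 n' B _ hne]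
          let C : MAlg 𝒜 := B.sub (core B (f.mnr h)) (core_closed B (f.mnr h))
          have hC : Nat.card C.D < Nat.card B.D := card_sub_lt _ _ hne
          let h' : A.D → C.D := fun a => ⟨h a, hge ⟨a, rfl⟩⟩
          have hh' : Hom A C h' := by
            intro I a x
            apply Subtype.ext
            exact hh I a x
          have hinj' : Function.Injective h' := by
            intro x y hxy
            exact hinj (congrArg Subtype.val hxy)
          have hsurj' : Function.Surjective h' := by
            rintro ⟨b, hb⟩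
            obtain ⟨a, rfl⟩ := hle hb
            exact ⟨a, rfl⟩
          have hC0 : 0 < Nat.card C.D := by
            have : Nonempty C.D := (core_nonempty hS B (f.mnr h)).to_subtype
            exact Nat.card_pos
          obtain ⟨m, rfl⟩ : ∃ m, n' = m + 1 := ⟨n' - 1, by omega⟩
          have key := nat_iso hS H F0 K hF0 A C n m hn (by omega) (by omega) IH h' hh' hinj'
            hsurj' f hf
          have h5 : (f.mnr h).mnr (retr B (core B (f.mnr h)) (core_closed B (f.mnr h))
              (core_nonempty hS B (f.mnr h))) = f.mnr h' := by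
            apply Pol.ext
            intro y
            refine congrArg f.1 (funext (fun i => ?_))
            show y (retr B _ _ _ (h i)) = y (h' i)
            rw [retr_mem B _ _ _ (h i) (hge ⟨i, rfl⟩)]
          rw [h5]
          exact congrArg Subtype.val key
      · -- not injective
        have hα : (ker h hh).Nontriv := by
          simp only [Function.Injective, not_forall] at hinj
          obtain ⟨x, y, hxy, hne⟩ := hinj
          exact ⟨x, y, hne, hxy⟩
        have h1 := F_mem hS H F0 K A n hn (by omega) IH f hf (ker h hh) hα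
        have h2 := card_quo_lt (ker h hh) hα
        let g : (A.quo (ker h hh)).D → B.D := quoLift (ker h hh) h (fun x y hxy => hxy)
        have hg : Hom (A.quo (ker h hh)) B g := by
          apply hom_of_quo
          exact hh
        have h3 := IH (A.quo (ker h hh)) h2 n (by omega) B (n' + 1) hBK hBn' g hg
          (f.mnr (A.quoMk (ker h hh)))
        rw [← h1] at h3
        exact h3
    · -- smaller support
      rw [F_notfull hS H F0 n A f hf]
      have h1 := card_sub_lt (core A f) (core_closed A f) hf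
      have h2 := IH (A.sub (core A f) (core_closed A f)) h1 n (by omega) B (n' + 1) hBK hBn'
        (fun t => h t.1) (Hom.comp hh (sub_hom A _ _))
        (f.mnr (retr A (core A f) (core_closed A f) (core_nonempty hS A f)))
      rw [mnr_retr A f (core A f) (core_closed A f) (core_nonempty hS A f) (core_supp A f) h] at h2
      exact h2

end main

end Pool.Agent.H99
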