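import Mathlib
import Pool.Agent.H99.Natural

set_option autoImplicit false

namespace Pool.Agent.H99

open MAlg

variable {σ τ υ : Sig}

/-! ### Generalities on minion homomorphisms -/

/-- Composition. -/
def MinionHom.comp {A : Str σ} {B : Str τ} {C : Str υ} (g : MinionHom B C) (f : MinionHom A B) :
    MinionHom A C where
  map := fun I x => g.map I (f.map I x)
  nat := by
    intro I J _ _ s x
    rw [f.nat, g.nat]

/-- Homomorphisms in both directions give a minor-preserving map. -/
def MinionHom.ofHoms {A C : Str σ} (p : A.Dom → C.Dom) (i : C.Dom → A.Dom) (hp : IsHom A C p)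
    (hi : IsHom C A i) : MinionHom A C where
  map := fun I f => ⟨fun x => p (f.1 (fun k => i (x k))), by
    intro R x hx
    apply hp R
    apply f.2 R (fun j k => i (x j k))
    intro k
    exact hi R _ (hx k)⟩
  nat := by
    intro I J _ _ s f
    rfl

theorem exists_core (A : Str σ) : ∃ (C : Str σ) (p : A.Dom → C.Dom) (i : C.Dom → A.Dom),
    IsHom A C p ∧ IsHom C A i ∧ (∀ u : C.Dom → C.Dom, IsHom C C u → Function.Bijective u) := by
  classical
  obtain ⟨e, he, hmin⟩ := WellFounded.has_min
    (measure (fun e : A.Dom → A.Dom => Set.ncard (Set.range e))).wf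
    {e | IsHom A A e} ⟨id, fun R x hx => hx⟩
  let C : Str σ :=
    { Dom := Set.range e
      finite := inferInstance
      rel := fun R x => A.rel R (fun j => (x j).1) }
  let p : A.Dom → C.Dom := fun a => ⟨e a, a, rfl⟩
  let i : C.Dom → A.Dom := fun c => c.1
  have hp : IsHom A C p := fun R x hx => he R x hx
  have hi : IsHom C A i := fun R x hx => hx
  refine ⟨C, p, i, hp, hi, ?_⟩
  intro u hu
  have h1 : IsHom A A (fun a => i (u (p a))) := by
    intro R x hx
    exact hi R _ (hu R _ (hp R x hx))
  have h2 := hmin (fun a => i (u (p a))) h1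
  have h3 : ¬ (Set.range (fun a => i (u (p a)))).ncard < (Set.range e).ncard := h2
  have hsub : Set.range (fun a => i (u (p a))) ⊆ Set.range e := by
    rintro _ ⟨a, rfl⟩
    exact (u (p a)).2
  have h4 : Set.range (fun a => i (u (p a))) = Set.range e :=
    Set.eq_of_subset_of_ncard_le hsub (not_lt.1 h3) (Set.toFinite _)
  have hsurj : Function.Surjective u := by
    rintro ⟨c, hc⟩
    rw [← h4] at hc
    obtain ⟨a, ha⟩ := hc
    exact ⟨p a, Subtype.ext ha⟩
  exact Finite.surjective_iff_bijective.1 hsurj

/-! ### Idempotent polymorphisms of a core -/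

/-- Idempotent polymorphisms. -/
def IdPol (C : Str σ) (I : Type) : Type := {f : Pol C I // ∀ c : C.Dom, f.1 (fun _ => c) = c}

/-- The minion of idempotent polymorphisms. -/
def idMinion (C : Str σ) : Minion where
  El := IdPol C
  mnr := fun s f => ⟨f.1.mnr s, fun c => f.2 c⟩

theorem IdPol.ext {C : Str σ} {I : Type} {f g : IdPol C I} (h : ∀ x, f.1.1 x = g.1.1 x) :
    f = g := Subtype.ext (Pol.ext h)

/-- The diagonal of a polymorphism. -/
def diag {C : Str σ} {I : Type} (f : Pol C I) : C.Dom → C.Dom := fun c => f.1 (fun _ => c)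

theorem diag_hom {C : Str σ} {I : Type} (f : Pol C I) : IsHom C C (diag f) := by
  intro R x hx
  exact f.2 R (fun j _ => x j) (fun _ => hx)

section core

variable {C : Str σ} (hC : ∀ u : C.Dom → C.Dom, IsHom C C u → Function.Bijective u)

/-- The inverse of an endomorphism of a core. -/
noncomputable def inv (u : C.Dom → C.Dom) (hu : IsHom C C u) : C.Dom → C.Dom :=
  (Equiv.ofBijective u (hC u hu)).symm

theorem inv_apply (u : C.Dom → C.Dom) (hu : IsHom C C u) (c : C.Dom) : inv hC u hu (u c) = c :=
  (Equiv.ofBijective u (hC u hu)).symm_apply_apply c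

theorem inv_hom (u : C.Dom → C.Dom) (hu : IsHom C C u) : IsHom C C (inv hC u hu) := by
  have hiter : ∀ n : ℕ, IsHom C C (u^[n]) := by
    intro n
    induction n with
    | zero => exact fun R x hx => hx
    | succ n ih =>
      intro R x hx
      have := hu R _ (ih R x hx)
      simpa only [Function.iterate_succ_apply'] using this
  let π : Equiv.Perm C.Dom := Equiv.ofBijective u (hC u hu)
  obtain ⟨n, hn, hn'⟩ := (isOfFinOrder_iff_pow_eq_one.1 (isOfFinOrder_of_finite π))
  have h1 : inv hC u hu = u^[n - 1] := by
    funext c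
    obtain ⟨d, rfl⟩ := (hC u hu).2 c
    rw [inv_apply, ← Function.iterate_succ_apply]
    have h2 : (n - 1).succ = n := by omega
    rw [h2]
    have h3 : (π ^ n) d = u^[n] d := by
      rw [Equiv.Perm.coe_pow]
      rfl
    rw [← h3, hn']
    rfl
  rw [h1]
  exact hiter _

/-- The idempotent polymorphism associated with a polymorphism of a core. -/
noncomputable def toId {I : Type} (f : Pol C I) : IdPol C I :=
  ⟨⟨fun x => inv hC (diag f) (diag_hom f) (f.1 x), by
    intro R x hx
    exact inv_hom hC _ _ R _ (f.2 R x hx)⟩, fun c => inv_apply hC (diag f) (diag_hom f) c⟩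

theorem toId_apply {I : Type} (f : Pol C I) (x : I → C.Dom) (c : C.Dom)
    (h : f.1 x = f.1 (fun _ => c)) : (toId hC f).1.1 x = c := by
  show inv hC (diag f) (diag_hom f) (f.1 x) = c
  rw [h]
  exact inv_apply hC (diag f) (diag_hom f) c

theorem toId_mnr {I J : Type} (s : I → J) (f : Pol C I) :
    toId hC (f.mnr s) = (idMinion C).mnr s (toId hC f) := rfl

/-- Projections. -/
def proj {C : Str σ} {I : Type} (i : I) : IdPol C I := ⟨⟨fun x => x i, fun _ _ hx => hx i⟩,
  fun _ => rfl⟩

/-- The distinguished elements from (M) and (S). -/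
theorem good_of_conds (hC : ∀ u : C.Dom → C.Dom, IsHom C C u → Function.Bijective u)
    (hM : CondM C) (hS : CondS C) : Nonempty (Good (idMinion C)) := by
  obtain ⟨m, hm, hm1⟩ := hM
  have hS' : ∀ n : ℕ, ∃ f : (Fin (n + 1 + 1) → C.Dom) → C.Dom, IsPolymorphism C (n + 1 + 1) f ∧
    (∀ (x : C.Dom) (y : Fin (n + 1) → C.Dom) (s : Equiv.Perm (Fin (n + 1))),
      f (Fin.cons x (fun i => y (s i))) = f (Fin.cons x y)) ∧
    (∀ x₁ x₂ y : C.Dom, f (Fin.cons x₁ (fun _ => y)) = f (Fin.cons x₂ (fun _ => y))) :=
    fun n => hS (n + 1) (by omega)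
  choose s hs hs1 hs2 using hS'
  let M : Pol C (Fin 3) := ⟨m, fun R x hx => hm R x hx⟩
  let T : (n : ℕ) → Pol C (Option (Fin (n + 1))) := fun n =>
    ⟨fun x => s n (Fin.cons (x none) (fun i => x (some i))), by
      intro R x hx
      have := hs n R (fun j => Fin.cons (x j none) (fun i => x j (some i))) (by
        intro i
        refine Fin.cases ?_ (fun i => ?_) i
        · simpa using hx none
        · simpa using hx (some i))
      exact this⟩
  refine ⟨{ u := proj ()
            m := toId hC M
            m1 := ?_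
            m2 := ?_
            s := fun n => toId hC (T n)
            s1 := ?_
            s2 := ?_ }⟩
  · apply IdPol.ext
    intro x
    show (toId hC M).1.1 (fun i => x ((![0, 1, 1] : Fin 3 → Fin 2) i)) = x 0
    apply toId_apply
    have e1 : (fun i => x ((![0, 1, 1] : Fin 3 → Fin 2) i)) = ![x 0, x 1, x 1] := by
      funext i
      fin_cases i <;> rfl
    have e2 : (fun _ : Fin 3 => x 0) = ![x 0, x 0, x 0] := by
      funext i
      fin_cases i <;> rfl
    rw [e1, e2]
    exact (hm1 (x 0) (x 1)).1
  · apply IdPol.ext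
    intro x
    show (toId hC M).1.1 (fun i => x ((![1, 1, 0] : Fin 3 → Fin 2) i)) = x 0
    apply toId_apply
    have e1 : (fun i => x ((![1, 1, 0] : Fin 3 → Fin 2) i)) = ![x 1, x 1, x 0] := by
      funext i
      fin_cases i <;> rfl
    have e2 : (fun _ : Fin 3 => x 0) = ![x 0, x 0, x 0] := by
      funext i
      fin_cases i <;> rfl
    rw [e1, e2]
    exact (hm1 (x 0) (x 1)).2.symm
  · intro n p
    have h1 : (T n).mnr (Option.map p) = T n := by
      apply Pol.ext
      intro x
      exact hs1 n (x none) (fun i => x (some i)) p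
    have h2 := toId_mnr hC (Option.map p) (T n)
    rw [h1] at h2
    exact h2.symm
  · intro n
    apply IdPol.ext
    intro x
    show (toId hC (T n)).1.1 (fun o : Option (Fin (n + 1)) => x (o.elim (0 : Fin 2) (fun _ => 1)))
      = x 1
    apply toId_apply
    exact hs2 n (x 0) (x 1) (x 1)

end core

/-! ### Algebras from a structure -/

/-- The structure itself as an algebra. -/
def baseAlg (C : Str σ) : MAlg (idMinion C) where
  D := C.Dom
  finite := inferInstance
  op := fun a x => a.1.1 x
  op_mnr := fun _ _ _ => rfl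
  op_unit := by
    intro a x
    have := a.2 (x ())
    exact this

/-- A relation of the structure as an algebra. -/
def relAlg (C : Str σ) (R : σ.Sym) : MAlg (idMinion C) where
  D := {t : Fin (σ.arity R) → C.Dom // C.rel R t}
  finite := inferInstance
  op := fun a x => ⟨fun j => a.1.1 (fun i => (x i).1 j),
    a.1.2 R (fun j i => (x i).1 j) (fun i => (x i).2)⟩
  op_mnr := fun _ _ _ => rfl
  op_unit := by
    intro a x
    apply Subtype.ext
    funext j
    have := a.2 ((x ()).1 j)
    exact this

/-- A bound for the sizes of the algebras. -/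
noncomputable def bound (C : Str σ) : ℕ :=
  Nat.card C.Dom + Nat.card ((R : σ.Sym) × {t : Fin (σ.arity R) → C.Dom // C.rel R t})

theorem card_base (C : Str σ) : Nat.card (baseAlg C).D ≤ bound C := Nat.le_add_right _ _

theorem card_rel (C : Str σ) (R : σ.Sym) : Nat.card (relAlg C R).D ≤ bound C := by
  refine le_trans ?_ (Nat.le_add_left _ _)
  apply Nat.card_le_card_of_injective
    (fun t : (relAlg C R).D => (⟨R, t⟩ : (R : σ.Sym) × {t : Fin (σ.arity R) → C.Dom // C.rel R t}))
  intro a b h
  exact eq_of_heq (Sigma.mk.inj h).2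

/-- A natural family gives a minor-preserving map. -/
theorem minionHom_of_nat {C : Str σ} {S : Str τ} (hS : NoConst S) (H : Good (idMinion C))
    (F0 : (A : MAlg (idMinion C)) → Pol S A.D → A.D)
    (hF0 : ∀ (A B : MAlg (idMinion C)) (h : A.D → B.D), Hom A B h → Function.Bijective h →
      Nat.card A.D ≤ bound C → ∀ f : Pol S A.D, F0 B (f.mnr h) = h (F0 A f)) :
    Nonempty (MinionHom S C) := by
  have key := nat_all hS H F0 (bound C) hF0
  refine ⟨{ map := fun I f => ⟨fun x => F hS H F0 (bound C) (baseAlg C) (f.mnr x), ?_⟩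
            nat := ?_ }⟩
  · intro R x hx
    let ρ : I → (relAlg C R).D := fun i => ⟨fun j => x j i, hx i⟩
    have h1 : ∀ j, F hS H F0 (bound C) (baseAlg C) (f.mnr (x j)) =
        (F hS H F0 (bound C) (relAlg C R) (f.mnr ρ)).1 j := by
      intro j
      have h2 := key _ (relAlg C R) rfl (card_rel C R) (bound C) (card_rel C R) (baseAlg C)
        (bound C) (card_base C) (card_base C) (fun t => t.1 j) (fun I a x => rfl) (f.mnr ρ)
      exact h2
    show C.rel R (fun j => F hS H F0 (bound C) (baseAlg C) (f.mnr (x j)))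
    simp only [h1]
    exact (F hS H F0 (bound C) (relAlg C R) (f.mnr ρ)).2
  · intro I J _ _ s f
    rfl

/-! ### The initial family -/

section init

variable {C : Str σ} {S : Str τ} (hS : NoConst S) (N : ℕ)
  (t : (D : Type) → Pol S D → (D → Fin N) → (idMinion C).El (Fin N))

/-- The initial family, natural for isomorphisms only. -/
noncomputable def F0 (A : MAlg (idMinion C)) (f : Pol S A.D) : A.D :=
  open Classical in
  if h : ∃ k, Nonempty (Fin N ≃ A.D × Fin (k + 1)) then
    A.op (t A.D f (fun d => h.choose_spec.some.symm (d, 0))) (fun i => (h.choose_spec.some i).1)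
  else (core_nonempty hS A f).some

theorem F0_iso (K : ℕ) (hN : N = K.factorial)
    (ht1 : ∀ (D : Type) (f : Pol S D) (q : D → Fin N) (p : Equiv.Perm (Fin N)),
      (idMinion C).mnr p (t D f q) = t D f (fun d => p (q d)))
    (ht2 : ∀ (D E : Type) (h : D → E) (f : Pol S D) (q : E → Fin N),
      t E (f.mnr h) q = t D f (fun d => q (h d)))
    (A B : MAlg (idMinion C)) (h : A.D → B.D) (hh : Hom A B h) (hb : Function.Bijective h)
    (hA : Nat.card A.D ≤ K) (f : Pol S A.D) :
    F0 hS N t B (f.mnr h) = h (F0 hS N t A f) := by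
  classical
  have hex : ∀ E : MAlg (idMinion C), Nonempty E.D → Nat.card E.D ≤ K →
      ∃ k, Nonempty (Fin N ≃ E.D × Fin (k + 1)) := by
    intro E hE hc
    have h0 : 0 < Nat.card E.D := Nat.card_pos
    obtain ⟨m, hm⟩ := Nat.dvd_factorial h0 hc
    have hN0 : 0 < N := by
      rw [hN]
      exact Nat.factorial_pos K
    rw [← hN] at hm
    have hm0 : m ≠ 0 := by
      rintro rfl
      omega
    obtain ⟨k, rfl⟩ := Nat.exists_eq_succ_of_ne_zero hm0
    refine ⟨k, ⟨?_⟩⟩
    have e1 : E.D ≃ Fin (Nat.card E.D) := Finite.equivFin _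
    have e2 : Fin (Nat.card E.D * (k + 1)) ≃ Fin (Nat.card E.D) × Fin (k + 1) :=
      finProdFinEquiv.symm
    have e3 : Fin N ≃ Fin (Nat.card E.D * (k + 1)) := finCongr hm
    exact e3.trans (e2.trans (Equiv.prodCongr e1.symm (Equiv.refl _)))
  have hneA : Nonempty A.D := (core_nonempty hS A f).to_type
  let e : A.D ≃ B.D := Equiv.ofBijective h hb
  have hneB : Nonempty B.D := ⟨e hneA.some⟩
  have hcard : Nat.card A.D = Nat.card B.D := Nat.card_congr e
  have hexA := hex A hneA hA
  have hexB := hex B hneB (by omega)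
  unfold F0
  rw [dif_pos hexA, dif_pos hexB]
  generalize hexA.choose_spec.some = bA
  generalize hexB.choose_spec.some = bB
  -- the two auxiliary numbers agree
  have hk : hexA.choose = hexB.choose := by
    have h1 : N = Nat.card A.D * (hexA.choose + 1) := by
      have := Nat.card_congr bA
      simpa [Nat.card_prod] using this
    have h2 : N = Nat.card B.D * (hexB.choose + 1) := by
      have := Nat.card_congr bB
      simpa [Nat.card_prod] using this
    have h3 : 0 < Nat.card A.D := Nat.card_pos
    rw [← hcard] at h2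
    have h4 : Nat.card A.D * (hexA.choose + 1) = Nat.card A.D * (hexB.choose + 1) := by
      rw [← h1, ← h2]
    have := Nat.eq_of_mul_eq_mul_left h3 h4
    omega
  let p : Equiv.Perm (Fin N) :=
    bA.trans ((Equiv.prodCongr e (finCongr (by rw [hk]))).trans bB.symm)
  have hp1 : ∀ d : A.D, p (bA.symm (d, 0)) = bB.symm (h d, 0) := by
    intro d
    simp only [p, Equiv.trans_apply, Equiv.apply_symm_apply]
    congr 1
  have hp2 : ∀ i, (bB (p i)).1 = h (bA i).1 := by
    intro i
    simp only [p, Equiv.trans_apply, Equiv.apply_symm_apply]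
    rfl
  rw [hh]
  have h5 : t B.D (f.mnr h) (fun d => bB.symm (d, 0)) =
      (idMinion C).mnr p (t A.D f (fun d => bA.symm (d, 0))) := by
    rw [ht2, ht1]
    congr 1
    funext d
    exact (hp1 d).symm
  rw [h5, B.op_mnr]
  congr 1
  funext i
  exact hp2 i

end init

/-! ### Permutation groups and `P1` satisfy (M) and (S) -/

theorem isPol_iff {A : Str σ} {n : ℕ} (f : (Fin n → A.Dom) → A.Dom) :
    IsPolymorphism A n f ↔ ∀ (R : σ.Sym) (x : Fin (σ.arity R) → Fin n → A.Dom),
    (∀ i, A.rel R (fun j => x j i)) → A.rel R (fun j => f (x j)) := Iff.rfl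

theorem condM_of_minionHom {A : Str σ} {B : Str τ} (ξ : MinionHom A B) (h : CondM A) :
    CondM B := by
  obtain ⟨f, hf, h1⟩ := h
  let F : Pol A (Fin 3) := ⟨f, fun R x hx => hf R x hx⟩
  refine ⟨(ξ.map _ F).1, fun R x hx => (ξ.map _ F).2 R x hx, ?_⟩
  have e1 : ∀ (E : Type) (x y : E), (fun i => ![x, y] ((![0, 1, 1] : Fin 3 → Fin 2) i)) =
      ![x, y, y] := by
    intro E x y
    funext i
    fin_cases i <;> rfl
  have e2 : ∀ (E : Type) (x y : E), (fun i => ![x, y] ((![0, 0, 0] : Fin 3 → Fin 2) i)) =
      ![x, x, x] := by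
    intro E x y
    funext i
    fin_cases i <;> rfl
  have e3 : ∀ (E : Type) (x y : E), (fun i => ![x, y] ((![1, 1, 0] : Fin 3 → Fin 2) i)) =
      ![y, y, x] := by
    intro E x y
    funext i
    fin_cases i <;> rfl
  have e4 : ∀ (E : Type) (x : Fin 2 → E), x = ![x 0, x 1] := by
    intro E x
    funext i
    fin_cases i <;> rfl
  have k1 : F.mnr (![0, 1, 1] : Fin 3 → Fin 2) = F.mnr (![0, 0, 0] : Fin 3 → Fin 2) := by
    apply Pol.ext
    intro x
    rw [e4 _ x]
    show f _ = f _
    rw [e1, e2]
    exact (h1 _ _).1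
  have k2 : F.mnr (![0, 0, 0] : Fin 3 → Fin 2) = F.mnr (![1, 1, 0] : Fin 3 → Fin 2) := by
    apply Pol.ext
    intro x
    rw [e4 _ x]
    show f _ = f _
    rw [e2, e3]
    exact (h1 _ _).2
  intro x y
  have l1 := congrArg (ξ.map _) k1
  have l2 := congrArg (ξ.map _) k2
  rw [ξ.nat, ξ.nat] at l1 l2
  have l1' := congrArg (fun g => g.1 ![x, y]) l1
  have l2' := congrArg (fun g => g.1 ![x, y]) l2
  refine ⟨?_, ?_⟩
  · have : (ξ.map _ F).1 (fun i => ![x, y] ((![0, 1, 1] : Fin 3 → Fin 2) i)) =
      (ξ.map _ F).1 (fun i => ![x, y] ((![0, 0, 0] : Fin 3 → Fin 2) i)) := l1'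
    rw [e1, e2] at this
    exact this
  · have : (ξ.map _ F).1 (fun i => ![x, y] ((![0, 0, 0] : Fin 3 → Fin 2) i)) =
      (ξ.map _ F).1 (fun i => ![x, y] ((![1, 1, 0] : Fin 3 → Fin 2) i)) := l2'
    rw [e2, e3] at this
    exact this

theorem condS_of_minionHom {A : Str σ} {B : Str τ} (ξ : MinionHom A B) (h : CondS A) :
    CondS B := by
  intro n hn
  obtain ⟨f, hf, h1, h2⟩ := h n hn
  let F : Pol A (Fin (n + 1)) := ⟨f, fun R x hx => hf R x hx⟩
  refine ⟨(ξ.map _ F).1, fun R x hx => (ξ.map _ F).2 R x hx, ?_, ?_⟩
  · intro x y s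
    let s' : Fin (n + 1) → Fin (n + 1) := Fin.cons 0 (fun i => (s i).succ)
    have e1 : ∀ (E : Type) (z : Fin (n + 1) → E), (fun i => z (s' i)) =
        Fin.cons (z 0) (fun i => z (s i).succ) := by
      intro E z
      funext i
      refine Fin.cases ?_ (fun i => ?_) i
      · simp [s']
      · simp [s']
    have k : F.mnr s' = F := by
      apply Pol.ext
      intro z
      show f _ = f z
      rw [e1]
      have := h1 (z 0) (fun i => z i.succ) s
      rw [this]
      congr 1
      exact Fin.cons_self_tail z
    have l := congrArg (ξ.map _) k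
    rw [ξ.nat] at l
    have l' : (ξ.map _ F).1 (fun i => (Fin.cons x y : Fin (n + 1) → B.Dom) (s' i)) =
        (ξ.map _ F).1 (Fin.cons x y) :=
      congrArg (fun g => g.1 (Fin.cons x y : Fin (n + 1) → B.Dom)) l
    rw [e1] at l'
    simpa using l'
  · intro x₁ x₂ y
    let s₁ : Fin (n + 1) → Fin 3 := Fin.cons 0 (fun _ => 2)
    let s₂ : Fin (n + 1) → Fin 3 := Fin.cons 1 (fun _ => 2)
    have e1 : ∀ (E : Type) (z : Fin 3 → E), (fun i => z (s₁ i)) =
        Fin.cons (z 0) (fun _ => z 2) := by
      intro E z
      funext i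
      refine Fin.cases ?_ (fun i => ?_) i
      · simp [s₁]
      · simp [s₁]
    have e2 : ∀ (E : Type) (z : Fin 3 → E), (fun i => z (s₂ i)) =
        Fin.cons (z 1) (fun _ => z 2) := by
      intro E z
      funext i
      refine Fin.cases ?_ (fun i => ?_) i
      · simp [s₂]
      · simp [s₂]
    have k : F.mnr s₁ = F.mnr s₂ := by
      apply Pol.ext
      intro z
      show f _ = f _
      rw [e1, e2]
      exact h2 _ _ _
    have l := congrArg (ξ.map _) k
    rw [ξ.nat, ξ.nat] at l
    have l' : (ξ.map _ F).1 (fun i => (![x₁, x₂, y] : Fin 3 → B.Dom) (s₁ i)) =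
        (ξ.map _ F).1 (fun i => (![x₁, x₂, y] : Fin 3 → B.Dom) (s₂ i)) :=
      congrArg (fun g => g.1 (![x₁, x₂, y] : Fin 3 → B.Dom)) l
    rw [e1, e2] at l'
    exact l'

theorem condM_of_pol {A : Str σ}
    (h : ∀ f : (Fin 3 → A.Dom) → A.Dom, (∀ x, (x 0 = x 1 ∧ f x = x 2) ∨ (x 0 ≠ x 1 ∧ f x = x 0)) →
      IsPolymorphism A 3 f) : CondM A := by
  classical
  let f : (Fin 3 → A.Dom) → A.Dom := fun x => if x 0 = x 1 then x 2 else x 0
  refine ⟨f, h f ?_, ?_⟩
  · intro x
    by_cases hx : x 0 = x 1
    · left
      exact ⟨hx, if_pos hx⟩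
    · right
      exact ⟨hx, if_neg hx⟩
  · intro x y
    by_cases hxy : x = y
    · subst hxy
      simp [f]
    · have : ¬ y = x := fun e => hxy e.symm
      simp [f, hxy]

theorem condS_of_pol {A : Str σ}
    (h : ∀ (n : ℕ) (f : (Fin (n + 1 + 1) → A.Dom) → A.Dom),
      (∀ x, ((∀ i : Fin (n + 1), x i.succ = x 1) ∧ f x = x 1) ∨
        ((¬ ∀ i : Fin (n + 1), x i.succ = x 1) ∧ f x = x 0)) →
      IsPolymorphism A (n + 1 + 1) f) : CondS A := by
  classical
  intro n hn
  obtain ⟨n, rfl⟩ : ∃ m, n = m + 1 := ⟨n - 1, by omega⟩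
  let f : (Fin (n + 1 + 1) → A.Dom) → A.Dom := fun x =>
    if ∀ i : Fin (n + 1), x i.succ = x 1 then x 1 else x 0
  have h10 : (1 : Fin (n + 1 + 1)) = Fin.succ 0 := rfl
  refine ⟨f, h n f ?_, ?_, ?_⟩
  · intro x
    by_cases hx : ∀ i : Fin (n + 1), x i.succ = x 1
    · left
      exact ⟨hx, if_pos hx⟩
    · right
      exact ⟨hx, if_neg hx⟩
  · intro x y s
    by_cases hy : ∃ c, ∀ i, y i = c
    · obtain ⟨c, hc⟩ := hy
      have : y = fun _ => c := funext hc
      rw [this]
    · have k1 : ¬ ∀ i : Fin (n + 1), (Fin.cons x y : Fin (n + 1 + 1) → A.Dom) i.succ =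
          (Fin.cons x y : Fin (n + 1 + 1) → A.Dom) 1 := by
        intro hh
        apply hy
        refine ⟨y 0, fun i => ?_⟩
        have := hh i
        rw [h10] at this
        simpa using this
      have k2 : ¬ ∀ i : Fin (n + 1),
          (Fin.cons x (fun i => y (s i)) : Fin (n + 1 + 1) → A.Dom) i.succ =
          (Fin.cons x (fun i => y (s i)) : Fin (n + 1 + 1) → A.Dom) 1 := by
        intro hh
        apply hy
        refine ⟨y (s 0), fun i => ?_⟩
        have := hh (s.symm i)
        rw [h10] at this
        simpa using this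
      show (if _ then _ else _) = (if _ then _ else _)
      rw [if_neg k1, if_neg k2]
      rfl
  · intro x₁ x₂ y
    have k : ∀ x : A.Dom, f (Fin.cons x (fun _ => y)) = y := by
      intro x
      have k1 : ∀ i : Fin (n + 1), (Fin.cons x (fun _ => y) : Fin (n + 1 + 1) → A.Dom) i.succ =
          (Fin.cons x (fun _ => y) : Fin (n + 1 + 1) → A.Dom) 1 := by
        intro i
        rw [h10]
        simp
      show (if _ then _ else _) = _
      rw [if_pos k1, h10]
      simp
    rw [k, k]

theorem condM_perm (G X : Type) [Group G] [Finite G] [Finite X] [MulAction G X] :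
    CondM (permStr G X) := by
  apply condM_of_pol
  intro f hf g x hx
  have hx' : ∀ i, x (1 : Fin 2) i = (show G from g) • (show X from x (0 : Fin 2) i) := hx
  show f (x (1 : Fin 2)) = (show G from g) • (show X from f (x (0 : Fin 2)))
  rcases hf (x (0 : Fin 2)) with ⟨h1, h2⟩ | ⟨h1, h2⟩
  · rcases hf (x (1 : Fin 2)) with ⟨h3, h4⟩ | ⟨h3, h4⟩
    · rw [h2, h4, hx']
    · exact absurd (by rw [hx', hx', h1]) h3
  · rcases hf (x (1 : Fin 2)) with ⟨h3, h4⟩ | ⟨h3, h4⟩
    · rw [hx', hx'] at h3
      exact absurd (MulAction.injective (β := X) (show G from g) h3) h1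
    · rw [h2, h4, hx']

theorem condS_perm (G X : Type) [Group G] [Finite G] [Finite X] [MulAction G X] :
    CondS (permStr G X) := by
  apply condS_of_pol
  intro n f hf g x hx
  have hx' : ∀ i, x (1 : Fin 2) i = (show G from g) • (show X from x (0 : Fin 2) i) := hx
  show f (x (1 : Fin 2)) = (show G from g) • (show X from f (x (0 : Fin 2)))
  rcases hf (x (0 : Fin 2)) with ⟨h1, h2⟩ | ⟨h1, h2⟩
  · rcases hf (x (1 : Fin 2)) with ⟨h3, h4⟩ | ⟨h3, h4⟩
    · rw [h2, h4, hx']
    · exfalso
      apply h3
      intro i
      rw [hx', hx', h1]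
  · rcases hf (x (1 : Fin 2)) with ⟨h3, h4⟩ | ⟨h3, h4⟩
    · exfalso
      apply h1
      intro i
      have := h3 i
      rw [hx', hx'] at this
      exact MulAction.injective (β := X) (show G from g) this
    · rw [h2, h4, hx']

/-- The order on `{0, 1}`. -/
def lt2 (a b : Fin 2) : Prop := a < b

theorem lt2_iff {a b : Fin 2} : lt2 a b ↔ a = 0 ∧ b = 1 := by
  unfold lt2
  constructor
  · intro h
    constructor <;> omega
  · rintro ⟨rfl, rfl⟩
    decide

theorem condM_P1 : CondM P1 := by
  apply condM_of_pol
  intro f hf R x hx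
  have hx' : ∀ i, lt2 (x (0 : Fin 2) i) (x (1 : Fin 2) i) := hx
  have k0 : f (x (0 : Fin 2)) = (0 : Fin 2) := by
    rcases hf (x (0 : Fin 2)) with ⟨_, h2⟩ | ⟨_, h2⟩
    · rw [h2]; exact (lt2_iff.1 (hx' _)).1
    · rw [h2]; exact (lt2_iff.1 (hx' _)).1
  have k1 : f (x (1 : Fin 2)) = (1 : Fin 2) := by
    rcases hf (x (1 : Fin 2)) with ⟨_, h2⟩ | ⟨_, h2⟩
    · rw [h2]; exact (lt2_iff.1 (hx' _)).2
    · rw [h2]; exact (lt2_iff.1 (hx' _)).2
  exact lt2_iff.2 ⟨k0, k1⟩

theorem condS_P1 : CondS P1 := by
  apply condS_of_pol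
  intro n f hf R x hx
  have hx' : ∀ i, lt2 (x (0 : Fin 2) i) (x (1 : Fin 2) i) := hx
  have k0 : f (x (0 : Fin 2)) = (0 : Fin 2) := by
    rcases hf (x (0 : Fin 2)) with ⟨_, h2⟩ | ⟨_, h2⟩
    · rw [h2]; exact (lt2_iff.1 (hx' _)).1
    · rw [h2]; exact (lt2_iff.1 (hx' _)).1
  have k1 : f (x (1 : Fin 2)) = (1 : Fin 2) := by
    rcases hf (x (1 : Fin 2)) with ⟨_, h2⟩ | ⟨_, h2⟩
    · rw [h2]; exact (lt2_iff.1 (hx' _)).2
    · rw [h2]; exact (lt2_iff.1 (hx' _)).2
  exact lt2_iff.2 ⟨k0, k1⟩


/-! ### The final case analysis -/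

/-- The action of permutations of the arguments on idempotent polymorphisms. -/
@[reducible] def permAction (C : Str σ) (N : ℕ) : MulAction (Equiv.Perm (Fin N)) (IdPol C (Fin N)) where
  smul p f := (idMinion C).mnr p f
  one_smul := fun _ => rfl
  mul_smul := fun _ _ _ => rfl

theorem finite_idPol (C : Str σ) (I : Type) [Finite I] : Finite (IdPol C I) := by
  unfold IdPol Pol
  infer_instance

/-- Composition with idempotent polymorphisms. -/
noncomputable def toPerm {C : Str σ} (hC : ∀ u : C.Dom → C.Dom, IsHom C C u → Function.Bijective u)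
    (N : ℕ) : letI := permAction C N; letI := finite_idPol C (Fin N)
      MinionHom C (permStr (Equiv.Perm (Fin N)) (IdPol C (Fin N))) :=
  letI := permAction C N
  letI := finite_idPol C (Fin N)
  { map := fun I f => ⟨fun t => (⟨⟨fun x => (toId hC f).1.1 (fun i => (t i).1.1 x), by
        intro R x hx
        exact (toId hC f).1.2 R (fun j i => (t i).1.1 (x j)) (fun i => (t i).1.2 R x hx)⟩, by
        intro c
        show (toId hC f).1.1 (fun i => (t i).1.1 (fun _ => c)) = c
        have : (fun i => (t i).1.1 (fun _ => c)) = fun _ => c := funext (fun i => (t i).2 c)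
        rw [this]
        exact (toId hC f).2 c⟩ : IdPol C (Fin N)), by
        intro p x hx
        have hx' : x (1 : Fin 2) = fun i => (idMinion C).mnr (show Equiv.Perm (Fin N) from p)
            (show (idMinion C).El (Fin N) from x (0 : Fin 2) i) := funext hx
        apply IdPol.ext
        intro y
        show (toId hC f).1.1 (fun i => (x (1 : Fin 2) i).1.1 y) = _
        rw [hx']
        rfl⟩
    nat := fun _ _ => rfl }

theorem main_forward (A : Str σ) (hM : CondM A) (hS : CondS A) :
    (∃ (G X : Type) (_ : Group G) (_ : Finite G) (_ : Finite X) (_ : MulAction G X),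
      PPInterconstructible A (permStr G X)) ∨ PPInterconstructible A P1 := by
  classical
  -- reduce to minor-preserving maps
  have red : ∀ {τ : Sig} (B : Str τ), Nonempty (MinionHom A B) → Nonempty (MinionHom B A) →
      PPInterconstructible A B := fun B h1 h2 =>
    ⟨ppConstructs_of_minionHom h1.some, ppConstructs_of_minionHom h2.some⟩
  obtain ⟨C, p, i, hp, hi, hC⟩ := exists_core A
  let ξ1 : MinionHom A C := MinionHom.ofHoms p i hp hi
  let ξ2 : MinionHom C A := MinionHom.ofHoms i p hi hp
  have hMC : CondM C := condM_of_minionHom ξ1 hM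
  have hSC : CondS C := condS_of_minionHom ξ1 hS
  by_cases h0 : Nonempty (Pol A Empty)
  · -- there is a constant satisfying everything
    obtain ⟨c⟩ := h0
    left
    refine ⟨Unit, Unit, inferInstance, inferInstance, inferInstance,
      { smul := fun _ x => x, one_smul := fun _ => rfl, mul_smul := fun _ _ _ => rfl }, ?_⟩
    apply red
    · exact ⟨{ map := fun I f => ⟨fun _ => (), fun _ _ _ => rfl⟩
               nat := fun _ _ => rfl }⟩
    · exact ⟨{ map := fun I f => c.mnr Empty.elim
               nat := by
                intro I J _ _ s f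
                apply Pol.ext
                intro x
                exact congrArg c.1 (funext (fun e => e.elim)) }⟩
  · by_cases hsub : ∀ a b : C.Dom, a = b
    · -- equivalent to the empty structure
      left
      refine ⟨Unit, Empty, inferInstance, inferInstance, inferInstance,
        { smul := fun _ x => x, one_smul := fun _ => rfl, mul_smul := fun _ _ _ => rfl }, ?_⟩
      have hI : ∀ (I : Type), Pol A I → Nonempty I := by
        intro I f
        by_contra hI
        rw [not_nonempty_iff] at hI
        exact h0 ⟨f.mnr (fun x => (hI.false x).elim)⟩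
      apply red
      · exact ⟨{ map := fun I f => ⟨fun y => y (hI I f).some, by
                  intro R x hx
                  exact hx _⟩
                 nat := by
                  intro I J _ _ s f
                  apply Pol.ext
                  intro x
                  exact (show Empty from x (hI J (f.mnr s)).some).elim }⟩
      · letI : MulAction Unit Empty :=
          { smul := fun _ x => x, one_smul := fun _ => rfl, mul_smul := fun _ _ _ => rfl }
        have hJ : ∀ (I : Type), Pol (permStr Unit Empty) I → Nonempty I := by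
          intro I f
          by_contra hI
          rw [not_nonempty_iff] at hI
          exact (show Empty from f.1 (fun x => (hI.false x).elim)).elim
        exact ⟨{ map := fun I f => ⟨fun y => i (p (y (hJ I f).some)), by
                  intro R x hx
                  exact hi R _ (hp R _ (hx _))⟩
                 nat := by
                  intro I J _ _ s f
                  apply Pol.ext
                  intro x
                  exact congrArg i (hsub _ _) }⟩
    · push Not at hsub
      obtain ⟨a0, a1, h01⟩ := hsub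
      obtain ⟨H⟩ := good_of_conds hC hMC hSC
      let N := (bound C).factorial
      have hNpos : 0 < N := Nat.factorial_pos _
      by_cases hfix : ∃ t0 : (idMinion C).El (Fin N), ∀ q : Equiv.Perm (Fin N),
          (idMinion C).mnr q t0 = t0
      · -- P1
        right
        obtain ⟨t0, ht0⟩ := hfix
        apply red
        · refine ⟨MinionHom.comp ?_ ξ1⟩
          refine { map := fun I f => ⟨fun b => if (toId hC f).1.1
              (fun k => if (show Fin 2 from b k) = 0 then a0 else a1) = a1 then (1 : Fin 2)
                else (0 : Fin 2), ?_⟩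
                   nat := fun _ _ => rfl }
          intro R x hx
          have hx' : ∀ i, lt2 (x (0 : Fin 2) i) (x (1 : Fin 2) i) := hx
          have k0 : x (0 : Fin 2) = fun _ => (0 : Fin 2) :=
            funext (fun i => (lt2_iff.1 (hx' i)).1)
          have k1 : x (1 : Fin 2) = fun _ => (1 : Fin 2) :=
            funext (fun i => (lt2_iff.1 (hx' i)).2)
          apply lt2_iff.2
          constructor
          · show (if (toId hC f).1.1 (fun k => if (show Fin 2 from x (0 : Fin 2) k) = 0
              then a0 else a1) = a1 then (1 : Fin 2) else 0) = 0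
            rw [k0]
            have : (toId hC f).1.1 (fun k => if (0 : Fin 2) = 0 then a0 else a1) = a0 := by
              simp only [if_true]
              exact (toId hC f).2 a0
            rw [this, if_neg h01]
          · show (if (toId hC f).1.1 (fun k => if (show Fin 2 from x (1 : Fin 2) k) = 0
              then a0 else a1) = a1 then (1 : Fin 2) else 0) = 1
            rw [k1]
            have : (toId hC f).1.1 (fun k => if (1 : Fin 2) = 0 then a0 else a1) = a1 := by
              have h10 : ¬ ((1 : Fin 2) = 0) := by decide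
              simp only [if_neg h10]
              exact (toId hC f).2 a1
            rw [this, if_pos rfl]
        · have hNC : NoConst P1 := by
            intro D f
            refine ⟨fun _ => (0 : Fin 2), fun _ => (1 : Fin 2), ?_⟩
            have := f.2 () (fun j _ => (show Fin 2 from j)) (by
              intro i
              show (0 : Fin 2) < 1
              decide)
            have h2 : lt2 (f.1 (fun _ => (0 : Fin 2))) (f.1 (fun _ => (1 : Fin 2))) := this
            have h3 := lt2_iff.1 h2
            intro h4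
            have h5 : (0 : Fin 2) = 1 := h3.1.symm.trans (h4.trans h3.2)
            exact absurd h5 (by decide)
          obtain ⟨ξ⟩ := minionHom_of_nat hNC H (F0 hNC N (fun _ _ _ => t0))
            (fun A B h hh hb hA f => F0_iso hNC N (fun _ _ _ => t0) (bound C) rfl
              (fun D f q p => ht0 p) (fun D E h f q => rfl) A B h hh hb hA f)
          exact ⟨MinionHom.comp ξ2 ξ⟩
      · -- the permutation group
        left
        push Not at hfix
        letI := permAction C N
        letI := finite_idPol C (Fin N)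
        refine ⟨Equiv.Perm (Fin N), IdPol C (Fin N), inferInstance, inferInstance, inferInstance,
          inferInstance, ?_⟩
        apply red
        · exact ⟨MinionHom.comp (toPerm hC N) ξ1⟩
        · let S := permStr (Equiv.Perm (Fin N)) (IdPol C (Fin N))
          have hact : ∀ (D : Type) (f : Pol S D) (y : D → IdPol C (Fin N))
              (q : Equiv.Perm (Fin N)), f.1 (fun d => (idMinion C).mnr q (y d)) =
                (idMinion C).mnr q (f.1 y) := by
            intro D f y q
            have := f.2 q (fun j => if (show Fin 2 from j) = 0 then y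
              else (fun d => (idMinion C).mnr q (y d))) (by
                intro d
                show _ = _
                rfl)
            exact this
          have hNC : NoConst S := by
            intro D f
            by_contra hcon
            push Not at hcon
            let y : D → IdPol C (Fin N) := fun _ => proj ⟨0, hNpos⟩
            obtain ⟨q, hq⟩ := hfix (f.1 y)
            apply hq
            rw [← hact D f y q]
            exact hcon _ _
          let t : (D : Type) → Pol S D → (D → Fin N) → (idMinion C).El (Fin N) :=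
            fun D f q => f.1 (fun d => (proj (q d) : IdPol C (Fin N)))
          obtain ⟨ξ⟩ := minionHom_of_nat hNC H (F0 hNC N t)
            (fun A B h hh hb hA f => F0_iso hNC N t (bound C) rfl
              (fun D f q p => (hact D f _ p).symm) (fun D E h f q => rfl) A B h hh hb hA f)
          exact ⟨MinionHom.comp ξ2 ξ⟩

/-- The characterisation. -/
theorem main (A : Str σ) :
    (CondM A ∧ CondS A) ↔
    ((∃ (G X : Type) (_ : Group G) (_ : Finite G) (_ : Finite X) (_ : MulAction G X),
      PPInterconstructible A (permStr G X)) ∨ PPInterconstructible A P1) := by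
  constructor
  · rintro ⟨hM, hS⟩
    exact main_forward A hM hS
  · rintro (⟨G, X, _, _, _, _, h⟩ | h)
    · obtain ⟨ξ⟩ := minionHom_of_ppConstructs h.2
      exact ⟨condM_of_minionHom ξ (condM_perm G X), condS_of_minionHom ξ (condS_perm G X)⟩
    · obtain ⟨ξ⟩ := minionHom_of_ppConstructs h.2
      exact ⟨condM_of_minionHom ξ condM_P1, condS_of_minionHom ξ condS_P1⟩

end Pool.Agent.H99
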